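import Pool.Agent.Q166.PT.Loc

/-!
Areas of neighbourhoods of arcs, grids of time intervals.
-/

set_option autoImplicit false

open MeasureTheory Filter Topology
open scoped ENNReal

namespace Pool.Agent.Q166.PT

/-- the area of the `ρ`-neighbourhood of the image of `S` -/
noncomputable def V (f : C(unitInterval, ℂ)) (ρ : ℝ) (S : Set unitInterval) : ℝ :=
  (volume (Metric.thickening ρ (f '' S))).toReal

theorem V_fin (f : C(unitInterval, ℂ)) (ρ : ℝ) (S : Set unitInterval) :
    volume (Metric.thickening ρ (f '' S)) ≠ ∞ := by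
  have h1 : Bornology.IsBounded (f '' S) :=
    (isCompact_range f.continuous).isBounded.subset (Set.image_subset_range _ _)
  exact h1.thickening.measure_lt_top.ne

theorem V_nonneg (f : C(unitInterval, ℂ)) (ρ : ℝ) (S : Set unitInterval) : 0 ≤ V f ρ S :=
  ENNReal.toReal_nonneg

theorem V_mono (f : C(unitInterval, ℂ)) (ρ : ℝ) {S S' : Set unitInterval} (h : S ⊆ S') :
    V f ρ S ≤ V f ρ S' :=
  ENNReal.toReal_mono (V_fin f ρ S')
    (measure_mono (Metric.thickening_subset_of_subset _ (Set.image_mono h)))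

theorem V_union (f : C(unitInterval, ℂ)) (ρ : ℝ) (S S' : Set unitInterval) :
    V f ρ (S ∪ S') ≤ V f ρ S + V f ρ S' := by
  unfold V
  rw [Set.image_union, Metric.thickening_union,
    ← ENNReal.toReal_add (V_fin f ρ S) (V_fin f ρ S')]
  exact ENNReal.toReal_mono (ENNReal.add_ne_top.2 ⟨V_fin f ρ S, V_fin f ρ S'⟩)
    (measure_union_le _ _)

theorem V_biUnion (f : C(unitInterval, ℂ)) (ρ : ℝ) {ι : Type*} (s : Finset ι)
    (S : ι → Set unitInterval) : V f ρ (⋃ i ∈ s, S i) ≤ ∑ i ∈ s, V f ρ (S i) := by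
  classical
  induction s using Finset.induction_on with
  | empty => simp [V]
  | insert a s ha ih =>
    rw [Finset.set_biUnion_insert, Finset.sum_insert ha]
    exact (V_union f ρ _ _).trans (by linarith)

theorem V_disj (f : C(unitInterval, ℂ)) (ρ : ℝ) {ι : Type*} (s : Finset ι)
    (S : ι → Set unitInterval) (h : ∀ i ∈ s, ∀ j ∈ s, i ≠ j →
      Disjoint (Metric.thickening ρ (f '' S i)) (Metric.thickening ρ (f '' S j))) :
    ∑ i ∈ s, V f ρ (S i) = V f ρ (⋃ i ∈ s, S i) := by
  have h1 : Metric.thickening ρ (f '' ⋃ i ∈ s, S i) =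
      ⋃ i ∈ s, Metric.thickening ρ (f '' S i) := by
    simp only [Set.image_iUnion, Metric.thickening_iUnion]
  unfold V
  rw [h1]
  exact (measureReal_biUnion_finset (μ := volume) (fun i hi j hj hij => h i hi j hj hij)
    (fun i _ => Metric.isOpen_thickening.measurableSet) (fun i _ => V_fin f ρ _)).symm

/-! ### Grids -/

/-- the grid of `M` steps of `[x, y]` -/
noncomputable def gr (x y : unitInterval) (M k : ℕ) : unitInterval :=
  Set.projIcc 0 1 zero_le_one ((x : ℝ) + k * ((y - x) / M))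

theorem gr_val {x y : unitInterval} (h : x ≤ y) {M k : ℕ} (hM : 0 < M) (hk : k ≤ M) :
    (gr x y M k : ℝ) = x + k * ((y - x) / M) := by
  have h1 : (x : ℝ) ≤ y := h
  have hM' : (0 : ℝ) < M := by exact_mod_cast hM
  have hk' : (k : ℝ) ≤ M := by exact_mod_cast hk
  have h2 : (k : ℝ) * ((y - x) / M) ≤ y - x := by
    have : (k : ℝ) * ((y - x) / M) = (k / M) * (y - x) := by ring
    rw [this]
    have h3 : (k : ℝ) / M ≤ 1 := (div_le_one hM').2 hk'
    nlinarith
  have h3 : 0 ≤ (k : ℝ) * ((y - x) / M) :=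
    mul_nonneg (Nat.cast_nonneg _) (div_nonneg (by linarith) hM'.le)
  have h4 : (x : ℝ) + k * ((y - x) / M) ∈ Set.Icc (0 : ℝ) 1 :=
    ⟨by linarith [x.2.1], by linarith [y.2.2]⟩
  unfold gr
  rw [Set.projIcc_of_mem zero_le_one h4]

theorem gr_zero {x y : unitInterval} (h : x ≤ y) {M : ℕ} (hM : 0 < M) : gr x y M 0 = x := by
  apply Subtype.ext
  rw [gr_val h hM (Nat.zero_le _)]
  simp

theorem gr_last {x y : unitInterval} (h : x ≤ y) {M : ℕ} (hM : 0 < M) : gr x y M M = y := by
  have hM' : (M : ℝ) ≠ 0 := by exact_mod_cast hM.ne'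
  apply Subtype.ext
  rw [gr_val h hM le_rfl]
  field_simp
  ring

theorem gr_step {x y : unitInterval} (h : x ≤ y) {M k : ℕ} (hk : k < M) :
    (gr x y M (k + 1) : ℝ) - gr x y M k = (y - x) / M := by
  rw [gr_val h (by omega) hk, gr_val h (by omega) hk.le]
  push_cast
  ring

theorem gr_mono {x y : unitInterval} (h : x ≤ y) {M j k : ℕ} (hjk : j ≤ k) (hk : k ≤ M)
    (hM : 0 < M) : gr x y M j ≤ gr x y M k := by
  have h1 : (x : ℝ) ≤ y := h
  change (gr x y M j : ℝ) ≤ gr x y M k
  rw [gr_val h hM hk, gr_val h hM (hjk.trans hk)]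
  have h2 : (0 : ℝ) ≤ (y - x) / M := div_nonneg (by linarith) (Nat.cast_nonneg _)
  have h3 : (j : ℝ) ≤ k := by exact_mod_cast hjk
  have := mul_le_mul_of_nonneg_right h3 h2
  linarith

theorem gr_mem {x y : unitInterval} (h : x ≤ y) {M k : ℕ} (hk : k ≤ M) (hM : 0 < M) :
    x ≤ gr x y M k ∧ gr x y M k ≤ y := by
  constructor
  · have := gr_mono h (Nat.zero_le k) hk hM
    rwa [gr_zero h hM] at this
  · have := gr_mono h hk le_rfl hM
    rwa [gr_last h hM] at this

theorem gr_cover {x y : unitInterval} (h : x ≤ y) {M : ℕ} (hM : 0 < M) :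
    Set.Icc x y ⊆ ⋃ k ∈ Finset.range M, Set.Icc (gr x y M k) (gr x y M (k + 1)) := by
  have key : ∀ m, 0 < m → m ≤ M → Set.Icc x (gr x y M m) ⊆
      ⋃ k ∈ Finset.range m, Set.Icc (gr x y M k) (gr x y M (k + 1)) := by
    intro m
    induction m with
    | zero => intro h0; omega
    | succ m ih =>
      intro _ hm w hw
      rcases Nat.eq_zero_or_pos m with h0 | h0
      · subst h0
        simp only [zero_add, Finset.range_one, Finset.mem_singleton, Set.iUnion_iUnion_eq_left]
        rw [gr_zero h hM]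
        exact hw
      · rcases le_total w (gr x y M m) with h1 | h1
        · have h2 := ih h0 (by omega) ⟨hw.1, h1⟩
          simp only [Set.mem_iUnion, Finset.mem_range] at h2 ⊢
          obtain ⟨k, hk, h3⟩ := h2
          exact ⟨k, by omega, h3⟩
        · simp only [Set.mem_iUnion, Finset.mem_range]
          exact ⟨m, by omega, h1, hw.2⟩
  have := key M hM le_rfl
  rwa [gr_last h hM] at this

/-- grid intervals which meet a null compact set are few -/
theorem gr_few {x y : unitInterval} (h : x < y) {E : Set unitInterval} (hE : IsCompact E)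
    (hE0 : volume E = 0) {ε : ℝ} (hε : 0 < ε) : ∃ M : ℕ, 0 < M ∧ ∃ B : Finset ℕ,
      B ⊆ Finset.range M ∧ (∀ k ∈ Finset.range M, k ∉ B →
        Disjoint (Set.Icc (gr x y M k) (gr x y M (k + 1))) E) ∧
      (B.card : ℝ) * ((y - x) / M) ≤ ε := by
  classical
  have hxy : (x : ℝ) < y := h
  obtain ⟨U, hU1, hU2, hU3⟩ := Set.exists_isOpen_lt_of_lt (μ := (volume : Measure unitInterval)) E
    (ENNReal.ofReal ε) (by rw [hE0]; exact ENNReal.ofReal_pos.2 hε)
  obtain ⟨δ, hδ, hδU⟩ := hE.exists_thickening_subset_open hU2 hU1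
  obtain ⟨M, hM⟩ := exists_nat_gt (((y : ℝ) - x) / δ)
  have hM0 : (0 : ℝ) < M := lt_of_le_of_lt (div_nonneg (by linarith) hδ.le) hM
  have hMpos : 0 < M := by exact_mod_cast hM0
  have hmesh : ((y : ℝ) - x) / M < δ := by
    rw [div_lt_iff₀ hM0]
    rw [div_lt_iff₀ hδ] at hM
    linarith
  refine ⟨M, hMpos, (Finset.range M).filter (fun k =>
    ¬ Disjoint (Set.Icc (gr x y M k) (gr x y M (k + 1))) E), Finset.filter_subset _ _, ?_, ?_⟩
  · intro k hk hkB
    by_contra hcon
    exact hkB (Finset.mem_filter.2 ⟨hk, hcon⟩)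
  · obtain ⟨B, hB⟩ : ∃ B, B = (Finset.range M).filter (fun k =>
      ¬ Disjoint (Set.Icc (gr x y M k) (gr x y M (k + 1))) E) := ⟨_, rfl⟩
    rw [← hB]
    have hsub : (⋃ k ∈ B, Set.Ioo (gr x y M k) (gr x y M (k + 1))) ⊆ U := by
      intro w hw
      simp only [Set.mem_iUnion] at hw
      obtain ⟨k, hk, hw⟩ := hw
      rw [hB, Finset.mem_filter, Finset.mem_range] at hk
      obtain ⟨e, he1, he2⟩ := Set.not_disjoint_iff.1 hk.2
      apply hδU
      rw [Metric.mem_thickening_iff]
      refine ⟨e, he2, ?_⟩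
      have h1 := gr_step h.le hk.1
      have a1 : (gr x y M k : ℝ) ≤ e := he1.1
      have a2 : (e : ℝ) ≤ gr x y M (k + 1) := he1.2
      have a3 : (gr x y M k : ℝ) < w := hw.1
      have a4 : (w : ℝ) < gr x y M (k + 1) := hw.2
      rw [Subtype.dist_eq, Real.dist_eq, abs_lt]
      constructor <;> linarith
    have hdis : (B : Set ℕ).PairwiseDisjoint
        (fun k => Set.Ioo (gr x y M k) (gr x y M (k + 1))) := by
      intro j hj k hk hjk
      have hj' : j < M := by
        have := hj
        rw [Finset.mem_coe, hB, Finset.mem_filter, Finset.mem_range] at this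
        exact this.1
      have hk' : k < M := by
        have := hk
        rw [Finset.mem_coe, hB, Finset.mem_filter, Finset.mem_range] at this
        exact this.1
      change Disjoint (Set.Ioo _ _) (Set.Ioo _ _)
      rw [Set.disjoint_left]
      rintro w ⟨w1, w2⟩ ⟨w3, w4⟩
      rcases lt_or_gt_of_ne hjk with h1 | h1
      · have h2 := gr_mono h.le (M := M) (show j + 1 ≤ k by omega) hk'.le hMpos
        exact absurd (w3.trans w2) (not_lt.2 h2)
      · have h2 := gr_mono h.le (M := M) (show k + 1 ≤ j by omega) hj'.le hMpos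
        exact absurd (w1.trans w4) (not_lt.2 h2)
    have h1 := measure_mono (μ := (volume : Measure unitInterval)) hsub
    rw [measure_biUnion_finset hdis (fun k _ => measurableSet_Ioo)] at h1
    have h2 : ∑ k ∈ B, volume (Set.Ioo (gr x y M k) (gr x y M (k + 1))) =
        ENNReal.ofReal ((B.card : ℝ) * ((y - x) / M)) := by
      have h3 : ∀ k ∈ B, volume (Set.Ioo (gr x y M k) (gr x y M (k + 1))) =
          ENNReal.ofReal (((y : ℝ) - x) / M) := by
        intro k hk
        rw [hB, Finset.mem_filter, Finset.mem_range] at hk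
        rw [unitInterval.volume_Ioo, gr_step h.le hk.1]
      rw [Finset.sum_congr rfl h3, Finset.sum_const, nsmul_eq_mul,
        ENNReal.ofReal_mul (Nat.cast_nonneg _), ENNReal.ofReal_natCast]
    rw [h2] at h1
    have h3 := (h1.trans_lt hU3)
    exact ((ENNReal.ofReal_lt_ofReal_iff hε).1 h3).le

end Pool.Agent.Q166.PT
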