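import Pool.Agent.Q166.PT.Vol

/-!
Transfer of the dimension of sets of times from arcs to the closed curve.
-/

set_option autoImplicit false

open MeasureTheory Filter Topology
open scoped ENNReal

namespace Pool.Agent.Q166.PT

open Pool.Agent.Y977.LGF

/-- An arc of `p` is a translate of an arc of `q`, with affine change of the time. -/
structure ArcD (p q : CT) (z : ℂ) (u v : ℝ) (lam : ℝ → unitInterval) (ρ : ℝ) : Prop where
  uv : u < v
  hρ : 0 < ρ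
  hq : 0 < q.2
  hpq : p.2 = q.2 * ρ
  hl : ∀ s t : ℝ, s ∈ Set.Icc u v → t ∈ Set.Icc u v → (lam t : ℝ) - lam s = ρ * (t - s)
  hm : ∀ t ∈ Set.Icc u v, per p.1 t = z + q.1 (lam t)

theorem ArcD.hp {p q : CT} {z : ℂ} {u v : ℝ} {lam : ℝ → unitInterval} {ρ : ℝ}
    (h : ArcD p q z u v lam ρ) : 0 < p.2 := by
  rw [h.hpq]
  exact mul_pos h.hq h.hρ

/-- A time of the arc of `q` as a time of `p`. -/
theorem ArcD.back {p q : CT} {z : ℂ} {u v : ℝ} {lam : ℝ → unitInterval} {ρ : ℝ}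
    (h : ArcD p q z u v lam ρ) {w η : ℝ} (h1 : u ≤ w - η) (h2 : w + η ≤ v) (hη : 0 < η)
    {y : ℝ} (hy : |y - lam w| < ρ * η) : ∃ x : ℝ, |x - w| < η ∧ ρ * (x - w) = y - lam w ∧
      (lam x : ℝ) = y := by
  have hρ := h.hρ
  have hx : ρ * (w + (y - lam w) / ρ - w) = y - lam w := by
    field_simp
    ring
  have h3 : |w + (y - lam w) / ρ - w| < η := by
    rw [← hx, abs_mul, abs_of_pos hρ] at hy
    exact lt_of_mul_lt_mul_left hy hρ.le
  refine ⟨w + (y - lam w) / ρ, h3, hx, ?_⟩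
  have h4 := abs_lt.1 h3
  have h5 := h.hl w (w + (y - lam w) / ρ) ⟨by linarith, by linarith⟩
    ⟨by linarith, by linarith⟩
  rw [hx] at h5
  linarith

/-- the upper bound for the dimension of a set of times -/
theorem dim_upper {G : Set CT} {p : CT} (hC : S_COV) (hA : S_ARC) (hG : ∀ q ∈ G, 0 < q.2)
    (hc : p.1 0 = p.1 1) (hsq : ∃ t, p.1 t ∈ sq) (hloc : LocG G p) (P : Set unitInterval)
    (Q : CT → Set unitInterval) (κ : ℝ≥0∞) (hQ : ∀ q ∈ G, dimH (Q q) ≤ κ)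
    (hPQ : ∀ q ∈ G, ∀ (z : ℂ) (u v : ℝ) (lam : ℝ → unitInterval) (ρ : ℝ),
      ArcD p q z u v lam ρ → ∀ w : unitInterval, u < (w : ℝ) + 1 → (w : ℝ) + 1 < v → p.1 w ∈ sq →
      w ∈ P → lam (w + 1) ∈ Q q) : dimH {w | p.1 w ∈ sq ∧ w ∈ P} ≤ κ := by
  obtain ⟨u, v, z, q, hi, hcov⟩ := hC G p hc hsq hloc
  have harc : ∀ i, ∃ (lam : ℝ → unitInterval) (ρ : ℝ),
      ArcD p (q i) (z i) (u i) (v i) lam ρ := by
    intro i
    obtain ⟨lam, ρ, h1, h2, h3, h4, h5⟩ := hA p (q i) (z i) (u i) (v i) hc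
      (hG _ (hi i).2.2.2.1) (hi i).2.2.2.2.1 (hi i).2.1 (hi i).2.2.2.2.2
    exact ⟨lam, ρ, (hi i).2.1, h1, hG _ (hi i).2.2.2.1, h3, h4, h5⟩
  choose lam ρ hD using harc
  have hsub : {w | p.1 w ∈ sq ∧ w ∈ P} ⊆ {(1 : unitInterval)} ∪
      ⋃ i, {w : unitInterval | u i < (w : ℝ) + 1 ∧ (w : ℝ) + 1 < v i ∧ p.1 w ∈ sq ∧ w ∈ P} := by
    rintro w ⟨hw1, hw2⟩
    rcases lt_or_eq_of_le w.2.2 with h | h
    · right
      obtain ⟨i, hi1, hi2⟩ := hcov ((w : ℝ) + 1) (by linarith [w.2.1]) (by linarith) (by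
        rw [per_add_one hc]
        exact hw1)
      exact Set.mem_iUnion.2 ⟨i, hi1, hi2, hw1, hw2⟩
    · left
      exact Subtype.ext h
  refine (dimH_mono hsub).trans ?_
  rw [dimH_union, dimH_singleton, dimH_iUnion]
  refine max_le bot_le (iSup_le fun i => ?_)
  refine le_trans ?_ (hQ _ (hi i).2.2.2.1)
  rw [← dim_affine (hD i).hρ ((lam i (v i) : ℝ) - ρ i * (v i - 1)), ← dim_val (Q (q i))]
  apply dimH_mono
  rintro _ ⟨w, ⟨h1, h2, h3, h3'⟩, rfl⟩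
  refine ⟨lam i (w + 1), hPQ _ (hi i).2.2.2.1 (z i) (u i) (v i) (lam i) (ρ i) (hD i) w h1 h2 h3 h3',
    ?_⟩
  have h4 := (hD i).hl _ _ ⟨h1.le, h2.le⟩ ⟨(hi i).2.1.le, le_rfl⟩
  change (lam i (w + 1) : ℝ) = ρ i * (w : ℝ) + ((lam i (v i) : ℝ) - ρ i * (v i - 1))
  linarith

theorem isOpen_sq : IsOpen sq := by
  have h2 : sq = {z : ℂ | 0 < z.re} ∩ ({z : ℂ | z.re < 1} ∩ ({z : ℂ | 0 < z.im} ∩
      {z : ℂ | z.im < 1})) := by
    ext z
    simp [Pool.Agent.Y977.LGF.sq]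
  rw [h2]
  exact (isOpen_lt continuous_const Complex.continuous_re).inter
    ((isOpen_lt Complex.continuous_re continuous_const).inter
    ((isOpen_lt continuous_const Complex.continuous_im).inter
    (isOpen_lt Complex.continuous_im continuous_const)))

/-- the lower bound for the dimension of a set of times -/
theorem dim_lower {G : Set CT} {p : CT} (hC : S_COV) (hA : S_ARC) (hG : ∀ q ∈ G, 0 < q.2)
    (hc : p.1 0 = p.1 1) (hsq : ∃ t, p.1 t ∈ sq) (hloc : LocG G p)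
    (hvol : volume {t : unitInterval | p.1 t ∉ sq} = 0) (P : Set unitInterval)
    (Q : CT → Set unitInterval) (κ : ℝ≥0∞)
    (hQ : ∀ q ∈ G, ∀ a b : unitInterval, a < b → κ ≤ dimH (Set.Icc a b ∩ Q q))
    (hPQ : ∀ q ∈ G, ∀ (z : ℂ) (u v : ℝ) (lam : ℝ → unitInterval) (ρ : ℝ),
      ArcD p q z u v lam ρ → ∀ w : unitInterval, u < (w : ℝ) + 1 → (w : ℝ) + 1 < v →
      0 < (w : ℝ) → (w : ℝ) < 1 → p.1 w ∈ sq → lam (w + 1) ∈ Q q → w ∈ P)
    {s t : unitInterval} (hst : s < t) :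
    κ ≤ dimH {w | w ∈ Set.Icc s t ∧ p.1 w ∈ sq ∧ w ∈ P} := by
  obtain ⟨u, v, z, q, hi, hcov⟩ := hC G p hc hsq hloc
  have harc : ∀ i, ∃ (lam : ℝ → unitInterval) (ρ : ℝ),
      ArcD p (q i) (z i) (u i) (v i) lam ρ := by
    intro i
    obtain ⟨lam, ρ, h1, h2, h3, h4, h5⟩ := hA p (q i) (z i) (u i) (v i) hc
      (hG _ (hi i).2.2.2.1) (hi i).2.2.2.2.1 (hi i).2.1 (hi i).2.2.2.2.2
    exact ⟨lam, ρ, (hi i).2.1, h1, hG _ (hi i).2.2.2.1, h3, h4, h5⟩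
  choose lam ρ hD using harc
  obtain ⟨w0, hw0, hw0sq⟩ : ∃ w0 : unitInterval, w0 ∈ Set.Ioo s t ∧ p.1 w0 ∈ sq := by
    by_contra hcon
    push Not at hcon
    have h1 : Set.Ioo s t ⊆ {t : unitInterval | p.1 t ∉ sq} := fun x hx => hcon x hx
    have h2 := measure_mono_null h1 hvol
    rw [unitInterval.volume_Ioo, ENNReal.ofReal_eq_zero] at h2
    have h3 : (s : ℝ) < t := hst
    linarith
  have hw01 : (w0 : ℝ) < 1 := lt_of_lt_of_le (show (w0 : ℝ) < t from hw0.2) t.2.2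
  have hw00 : 0 < (w0 : ℝ) := lt_of_le_of_lt s.2.1 (show (s : ℝ) < w0 from hw0.1)
  obtain ⟨i, hi1, hi2⟩ := hcov ((w0 : ℝ) + 1) (by linarith) (by linarith) (by
    rw [per_add_one hc]
    exact hw0sq)
  have hopen : IsOpen {w : unitInterval | p.1 w ∈ sq} := isOpen_sq.preimage p.1.continuous
  obtain ⟨ε, hε, hball⟩ := Metric.isOpen_iff.1 hopen w0 hw0sq
  set m := min (min ε (min ((w0 : ℝ) - s) (t - w0))) (min ((w0 : ℝ) + 1 - u i) (v i - (w0 + 1)))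
    with hm
  have g0 : (s : ℝ) < w0 := hw0.1
  have g0' : (w0 : ℝ) < t := hw0.2
  have hm0 : 0 < m := lt_min (lt_min hε (lt_min (by linarith) (by linarith)))
    (lt_min (by linarith) (by linarith))
  have k1 : m ≤ ε := (min_le_left _ _).trans (min_le_left _ _)
  have k2 : m ≤ (w0 : ℝ) - s := (min_le_left _ _).trans ((min_le_right _ _).trans (min_le_left _ _))
  have k3 : m ≤ t - w0 := (min_le_left _ _).trans ((min_le_right _ _).trans (min_le_right _ _))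
  have k4 : m ≤ (w0 : ℝ) + 1 - u i := (min_le_right _ _).trans (min_le_left _ _)
  have k5 : m ≤ v i - (w0 + 1) := (min_le_right _ _).trans (min_le_right _ _)
  obtain ⟨η, hη⟩ : ∃ η, η = m / 2 := ⟨_, rfl⟩
  have hη0 : 0 < η := by rw [hη]; linarith
  have g1 : η < ε := by linarith
  have g2 : η < (w0 : ℝ) - s := by linarith
  have g3 : η < t - w0 := by linarith
  have g4 : η < (w0 : ℝ) + 1 - u i := by linarith
  have g5 : η < v i - (w0 + 1) := by linarith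
  -- the interval
  have hρ := (hD i).hρ
  have hIa : (w0 : ℝ) - η + 1 ∈ Set.Icc (u i) (v i) := ⟨by linarith, by linarith⟩
  have hIb : (w0 : ℝ) + η + 1 ∈ Set.Icc (u i) (v i) := ⟨by linarith, by linarith⟩
  have hab : lam i ((w0 : ℝ) - η + 1) < lam i ((w0 : ℝ) + η + 1) := by
    have h1 := (hD i).hl _ _ hIa hIb
    have h2 : 0 < ρ i * ((w0 : ℝ) + η + 1 - ((w0 : ℝ) - η + 1)) :=
      mul_pos hρ (by linarith)
    change (lam i ((w0 : ℝ) - η + 1) : ℝ) < lam i ((w0 : ℝ) + η + 1)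
    linarith
  have hlow := hQ _ (hi i).2.2.2.1 _ _ hab
  refine hlow.trans ?_
  rw [← dim_val, ← dim_affine hρ ((lam i ((w0 : ℝ) - η + 1) : ℝ) - ρ i * ((w0 : ℝ) - η))
    {w | w ∈ Set.Icc s t ∧ p.1 w ∈ sq ∧ w ∈ P}]
  apply dimH_mono
  rintro _ ⟨x, ⟨⟨hxa, hxb⟩, hxF⟩, rfl⟩
  have hxa' : (lam i ((w0 : ℝ) - η + 1) : ℝ) ≤ x := hxa
  have hxb' : (x : ℝ) ≤ lam i ((w0 : ℝ) + η + 1) := hxb
  have hab2 := (hD i).hl _ _ hIa hIb
  obtain ⟨y, hy⟩ : ∃ y : ℝ, y = w0 - η + ((x : ℝ) - lam i ((w0 : ℝ) - η + 1)) / ρ i := ⟨_, rfl⟩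
  have hyx : ρ i * (y - (w0 - η)) = x - lam i ((w0 : ℝ) - η + 1) := by
    have := hρ.ne'
    rw [hy]
    field_simp
    ring
  have hy1 : (w0 : ℝ) - η ≤ y := by
    by_contra hcon
    push Not at hcon
    have : ρ i * (y - (w0 - η)) < 0 := mul_neg_of_pos_of_neg hρ (by linarith)
    linarith
  have hy2 : y ≤ w0 + η := by
    by_contra hcon
    push Not at hcon
    have : ρ i * (w0 + η - (w0 - η)) < ρ i * (y - (w0 - η)) :=
      mul_lt_mul_of_pos_left (by linarith) hρ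
    have h3 : ρ i * ((w0 : ℝ) + η + 1 - ((w0 : ℝ) - η + 1)) = ρ i * (w0 + η - (w0 - η)) := by
      ring
    linarith
  have hyI : y ∈ unitInterval := ⟨by linarith [s.2.1], by linarith [t.2.2]⟩
  have hlamy : lam i (y + 1) = x := by
    apply Subtype.ext
    have h1 := (hD i).hl ((w0 : ℝ) - η + 1) (y + 1) hIa ⟨by linarith, by linarith⟩
    have h2 : y + 1 - ((w0 : ℝ) - η + 1) = y - (w0 - η) := by ring
    rw [h2, hyx] at h1
    linarith
  have hsqy : p.1 (⟨y, hyI⟩ : unitInterval) ∈ sq := by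
    apply hball
    rw [Metric.mem_ball]
    change |y - w0| < ε
    rw [abs_lt]
    constructor <;> linarith
  refine ⟨⟨y, hyI⟩, ⟨⟨?_, ?_⟩, hsqy, ?_⟩, ?_⟩
  · change (s : ℝ) ≤ y
    linarith
  · change y ≤ t
    linarith
  · refine hPQ _ (hi i).2.2.2.1 _ _ _ _ _ (hD i) ⟨y, hyI⟩
      (by change u i < y + 1; linarith) (by change y + 1 < v i; linarith)
      (by change 0 < y; linarith [s.2.1]) (by change y < 1; linarith [t.2.2]) hsqy ?_
    change lam i (y + 1) ∈ _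
    rw [hlamy]
    exact hxF
  · change ρ i * y + ((lam i ((w0 : ℝ) - η + 1) : ℝ) - ρ i * ((w0 : ℝ) - η)) = x
    linarith

end Pool.Agent.Q166.PT
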