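import Pool.Agent.Y995.LG.Fin2
import Pool.Agent.Q166.PT.Tr

/-!
Transfer of local properties of the exploration paths which depend on the rectangle.
-/

set_option autoImplicit false

namespace Pool.Agent.Q166.PT

open H984P H984N MeasureTheory Filter Topology Pool.Agent.Y995.HG Pool.Agent.Y995.LG
open scoped ENNReal

/-- Every time at which the closed curve is in the open square is in the interior of an arc in a
small open rectangle which is a translate of an arc of an element of `G`, with the same natural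
time. -/
def LocK (G : Loc → Set X) (p : X) : Prop := ∀ t0 : ℝ, 1 ≤ t0 → t0 < 2 →
  per p.1 t0 ∈ Pool.Agent.Y995.LG.sq →
  ∃ (u v : ℝ) (κ : Loc) (q : X), 0 < u ∧ u < t0 ∧ t0 < v ∧ v < u + 1 ∧ q ∈ G κ ∧
    SegRel p q κ.z u v ∧ (∀ t, u < t → t < v → per p.1 t ∈ κ.op) ∧
    ∃ s, u < s ∧ s < v ∧ per p.1 s ≠ per p.1 u

/-- Arcs of one curve. -/
theorem locK_one (hSEG : S_SEG) (hSPL : S_SPLIT) {G : Loc → Set X} {Dx Dy : Set ℝ}
    (hDx : ∀ a b : ℝ, 0 ≤ a → a < b → b ≤ 1 → ∃ x ∈ Dx, a < x ∧ x < b)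
    (hDy : ∀ a b : ℝ, 0 ≤ a → a < b → b ≤ 1 → ∃ x ∈ Dy, a < x ∧ x < b)
    {K : ℕ → Loc} (hK : ∀ κ : Loc, (κ.l ∈ Dx ∧ κ.r ∈ Dx ∧ κ.α ∈ Dx ∧ κ.β ∈ Dx ∧ κ.b ∈ Dy ∧
      κ.h ∈ Dy) → ∃ j, K j = κ)
    {p : X} (h0 : p.1 0 = p.1 1) (hdim : dimH (Set.range p.1) = 7 / 4)
    (hgx : ∀ x ∈ Dx, Gen Complex.re x (per p.1) ∧ NoDbl Complex.re x (per p.1))
    (hgy : ∀ x ∈ Dy, Gen Complex.im x (per p.1) ∧ NoDbl Complex.im x (per p.1))
    {n : ℕ → ℕ} {F : ℕ → Finset Edge} {w : ℕ → ℤ × ℤ} {x : ℕ → X} {y : ℕ → X}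
    (hn : Tendsto n atTop atTop) (hnat : ∀ m, IsNat (n m) (F m) (w m) (x m))
    (hx : Tendsto x atTop (𝓝 p))
    (hy : ∀ j, y j ∈ G (K j) ∧ Tendsto (fun m => (K j).Y (n m) (F m)) atTop (𝓝 (y j))) :
    LocK G p := by
  have hper := per_cont h0
  intro t0 h1 h2 h3
  have hne : ∃ t, per p.1 t ≠ per p.1 t0 := by
    by_contra hcon
    push Not at hcon
    have h4 : Set.range p.1 ⊆ {per p.1 t0} := by
      rintro _ ⟨t, rfl⟩
      rw [← per_self h0 t]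
      exact hcon t
    have h5 : dimH (Set.range p.1) ≤ 0 := by
      have := dimH_mono h4
      rwa [dimH_singleton] at this
    rw [hdim] at h5
    norm_num at h5
  obtain ⟨κ, hκ, u, v, hu, hv, hcrs⟩ := hSPL Dx Dy hDx hDy (per p.1) hper (per_one p.1) hgx hgy t0
    h3 hne
  obtain ⟨j, rfl⟩ := hK κ hκ
  have hu0 : 0 < u := by linarith [hcrs.2.1]
  have hbox : GenBox (K j) (per p.1) :=
    ⟨(hgx _ hκ.1).1, (hgx _ hκ.2.1).1, (hgy _ hκ.2.2.2.2.1).1, (hgy _ hκ.2.2.2.2.2).1⟩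
  have hseg := hSEG (K j) p (y j) u v h0 hu0 hcrs hbox n F w x hn hnat hx (hy j).2
  exact ⟨u, v, K j, y j, hu0, hu, hv, hcrs.2.1, (hy j).1, hseg, hcrs.2.2.1, hcrs.ne⟩

/-- Transfer of local properties of the exploration paths. -/
theorem transferK (hSEG : S_SEG) (hSPL : S_SPLIT) (hGA : S_GENA) (hGB : S_GENB) (hLAW : S_LAW)
    (hGL : S_GL) (hDIA : S_DIAG) (hCUR : S_CUR)
    (hEx : ∀ R : Rect, ∀ δ : ℕ → ℝ, (∀ i, 0 < δ i) → Tendsto δ atTop (𝓝 0) →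
      ∃ φ : ℕ → ℕ, StrictMono φ ∧ ∃ μ : ProbabilityMeasure X,
        Tendsto (fun i => R.law (δ (φ i))) atTop (𝓝 μ))
    {G : Loc → Set X} (hGG : ∀ κ : Loc, ∀ δ : ℕ → ℝ, (∀ i, 0 < δ i) → Tendsto δ atTop (𝓝 0) →
      ∀ μ : ProbabilityMeasure X, Tendsto (fun i => κ.R.law (δ i)) atTop (𝓝 μ) →
      ∀ᵐ q ∂(μ : Measure X), q ∈ G κ)
    {sel : (n : ℕ) → Finset Edge → ℤ × ℤ} {f : (n : ℕ) → Finset Edge → X} (hsel : Sel sel f)
    {k : ℕ → ℕ} (hk : Tendsto k atTop atTop) {μ : ProbabilityMeasure X}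
    (hμ : Tendsto (fun i => H342L.lawOf (k i) (f (k i))) atTop (𝓝 μ)) :
    ∀ᵐ p ∂(μ : Measure X), LocK G p := by
  have hcur := hCUR sel f hsel k hk μ hμ
  have hcl : ∀ᵐ p ∂(μ : Measure X), p.1 0 = p.1 1 := by
    filter_upwards [hcur] with p hp
    exact hp.1
  have hdb : ∀ᵐ p ∂(μ : Measure X), dimH (dbl p.1) < 1 := by
    filter_upwards [hcur] with p hp
    rw [hp.2.2, e34, ← ENNReal.ofReal_one]
    exact (ENNReal.ofReal_lt_ofReal_iff (by norm_num)).mpr (by norm_num)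
  have hlre : LipschitzWith 1 Complex.re :=
    LipschitzWith.of_dist_le_mul (fun x y => by
      rw [NNReal.coe_one, one_mul, Real.dist_eq, Complex.dist_eq, ← Complex.sub_re]
      exact Complex.abs_re_le_norm _)
  have hlim : LipschitzWith 1 Complex.im :=
    LipschitzWith.of_dist_le_mul (fun x y => by
      rw [NNReal.coe_one, one_mul, Real.dist_eq, Complex.dist_eq, ← Complex.sub_im]
      exact Complex.abs_im_le_norm _)
  -- generic lines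
  have hX : ∀ᵐ x : ℝ, ∀ᵐ p ∂(μ : Measure X), Gen Complex.re x (per p.1) ∧
      NoDbl Complex.re x (per p.1) := by
    filter_upwards [hGA μ hcl _ Complex.continuous_re, hGB μ hcl hdb _ hlre] with x h1 h2
    filter_upwards [h1, h2] with p h3 h4
    exact ⟨h3, h4⟩
  have hY : ∀ᵐ x : ℝ, ∀ᵐ p ∂(μ : Measure X), Gen Complex.im x (per p.1) ∧
      NoDbl Complex.im x (per p.1) := by
    filter_upwards [hGA μ hcl _ Complex.continuous_im, hGB μ hcl hdb _ hlim] with x h1 h2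
    filter_upwards [h1, h2] with p h3 h4
    exact ⟨h3, h4⟩
  obtain ⟨Dx, hDc, hDp, hDd⟩ := lines hX
  obtain ⟨Dy, hEc, hEp, hEd⟩ := lines hY
  obtain ⟨K, hK⟩ := enum hDc hEc
  have hgx : ∀ᵐ p ∂(μ : Measure X), ∀ x ∈ Dx, Gen Complex.re x (per p.1) ∧
      NoDbl Complex.re x (per p.1) := (ae_ball_iff hDc).mpr hDp
  have hgy : ∀ᵐ p ∂(μ : Measure X), ∀ x ∈ Dy, Gen Complex.im x (per p.1) ∧
      NoDbl Complex.im x (per p.1) := (ae_ball_iff hEc).mpr hEp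
  -- positive scales
  obtain ⟨i0, hi0⟩ := (tendsto_atTop_atTop.mp hk) 1
  obtain ⟨k1, hk1⟩ : ∃ k1 : ℕ → ℕ, ∀ i, k1 i = k (i + i0) := ⟨_, fun _ => rfl⟩
  have hk1p : ∀ i, 0 < k1 i := fun i => by
    rw [hk1]
    exact hi0 _ (Nat.le_add_left _ _)
  have hk1t : Tendsto k1 atTop atTop := by
    have : k1 = fun i => k (i + i0) := funext hk1
    rw [this]
    exact hk.comp (tendsto_add_atTop_nat i0)
  have hμ1 : Tendsto (fun i => H342L.lawOf (k1 i) (f (k1 i))) atTop (𝓝 μ) := by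
    have h1 := hμ.comp (tendsto_add_atTop_nat i0)
    have : (fun i => H342L.lawOf (k1 i) (f (k1 i))) =
        (fun i => H342L.lawOf (k i) (f (k i))) ∘ (fun i => i + i0) := by
      funext i
      simp only [Function.comp_apply, hk1]
    rw [this]
    exact h1
  have hδt : ∀ φ : ℕ → ℕ, StrictMono φ → Tendsto (fun i => 1 / ((k1 (φ i) : ℕ) : ℝ)) atTop (𝓝 0) := by
    intro φ hφ
    have h1 : Tendsto (fun i => ((k1 (φ i) : ℕ) : ℝ)) atTop atTop :=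
      tendsto_natCast_atTop_atTop.comp (hk1t.comp hφ.tendsto_atTop)
    have h2 := h1.inv_tendsto_atTop
    refine h2.congr (fun i => ?_)
    simp
  have hδp : ∀ φ : ℕ → ℕ, ∀ i, (0:ℝ) < 1 / ((k1 (φ i) : ℕ) : ℝ) := by
    intro φ i
    have : (0:ℝ) < ((k1 (φ i) : ℕ) : ℝ) := by exact_mod_cast hk1p _
    positivity
  -- diagonal subsequence
  obtain ⟨φ, hφ, hlaw⟩ := hDIA (ProbabilityMeasure X)
    (fun j i => (K j).R.law (1 / ((k1 i : ℕ) : ℝ)))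
    (fun j φ hφ => by
      obtain ⟨ψ, hψ, ν, hν⟩ := hEx (K j).R (fun i => 1 / ((k1 (φ i) : ℕ) : ℝ)) (hδp φ)
        (hδt φ hφ)
      exact ⟨ψ, hψ, ν, hν⟩)
  choose ν hν using hlaw
  have hG : ∀ j, ∀ᵐ q ∂(ν j : Measure X), q ∈ G (K j) := by
    intro j
    exact hGG (K j) (fun i => 1 / ((k1 (φ i) : ℕ) : ℝ)) (hδp φ) (hδt φ hφ) (ν j) (hν j)
  have hνY : ∀ j, Tendsto (fun i => H342L.lawOf (k1 (φ i)) ((K j).Y (k1 (φ i)))) atTop
      (𝓝 (ν j)) := by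
    intro j
    obtain ⟨n0, hn0⟩ := hLAW (K j)
    refine (hν j).congr' ?_
    have h1 : Tendsto (fun i => k1 (φ i)) atTop atTop := hk1t.comp hφ.tendsto_atTop
    filter_upwards [h1.eventually_ge_atTop n0] with i hi
    exact ((hn0 _ hi).2).symm
  have hgl := hGL (fun i => k1 (φ i)) f μ (hμ1.comp hφ.tendsto_atTop) (fun j n F => (K j).Y n F) ν
    hνY (fun j => G (K j)) hG
  filter_upwards [hcur, hgx, hgy, hgl] with p q1 q3 q4 q5
  obtain ⟨ψ, F, y, hψ, hF, hx, hy⟩ := q5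
  refine locK_one hSEG hSPL hDd hEd hK q1.1 q1.2.1 q3 q4
    (n := fun m => k1 (φ (ψ m))) (F := F) (w := fun m => sel (k1 (φ (ψ m))) (F m))
    (x := fun m => f (k1 (φ (ψ m))) (F m)) (y := y) ?_ ?_ hx (fun j => ⟨(hy j).1, (hy j).2⟩)
  · exact hk1t.comp (hφ.tendsto_atTop.comp hψ.tendsto_atTop)
  · intro m
    exact hsel.nat _ _ (hk1p _) (hF m)

/-! ### Fixed sets -/

/-- The property of the exploration paths. -/
def FixG (S : Set ℂ) (κ : Loc) : Set X :=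
  {q | 0 < q.2 ∧
    dimH {s : unitInterval | κ.z + q.1 s ∈ S ∧ q.1 s ∈ κ.R.D} ≤ 4 / 7 * (dimH S - 1 / 4) ∧
    (dimH S < 1 / 4 → ∀ s : unitInterval, ¬ (κ.z + q.1 s ∈ S ∧ q.1 s ∈ κ.R.D))}

theorem mem_D {κ : Loc} {w y : ℂ} (h : w ∈ κ.op) (e : w = κ.z + y) : y ∈ κ.R.D := by
  obtain ⟨h1, h2, h3, h4⟩ := h
  have e1 : w.re = κ.β + y.re := by rw [e]; rfl
  have e2 : w.im = κ.b + y.im := by rw [e]; rfl
  rw [e1] at h1 h2
  rw [e2] at h3 h4
  refine ⟨?_, ?_, ?_, ?_⟩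
  · change -(κ.β - κ.l) < y.re
    linarith
  · change y.re < κ.r - κ.β
    linarith
  · linarith
  · change y.im < κ.h - κ.b
    linarith

/-- The set of times at which the closed curve is in `S`. -/
theorem fix_one {S : Set ℂ} {p : X} (hA : S_ARC) (hc : p.1 0 = p.1 1) (h : LocK (FixG S) p) :
    dimH {t : unitInterval | p.1 t ∈ S ∧ p.1 t ∈ Pool.Agent.Y995.LG.sq} ≤
      4 / 7 * (dimH S - 1 / 4) ∧
    (dimH S < 1 / 4 → ∀ t : unitInterval, p.1 t ∈ Pool.Agent.Y995.LG.sq → p.1 t ∉ S) := by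
  have hpa : ∀ w : unitInterval, per p.1 ((w : ℝ) + 1) = p.1 w :=
    fun w => Pool.Agent.Y977.LGF.per_add_one hc w
  -- local form, for all times but one
  have hlo : ∀ w0 : unitInterval, (w0 : ℝ) < 1 → p.1 w0 ∈ Pool.Agent.Y995.LG.sq →
      ∃ U ∈ 𝓝 w0, dimH {t : unitInterval | t ∈ U ∧ p.1 t ∈ S} ≤ 4 / 7 * (dimH S - 1 / 4) ∧
        (dimH S < 1 / 4 → p.1 w0 ∉ S) := by
    intro w0 hw1 hw
    obtain ⟨u, v, κ, q, a1, a2, a3, a4, a5, a6, a7, a8⟩ := h ((w0 : ℝ) + 1) (by linarith [w0.2.1])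
      (by linarith) (by rw [hpa]; exact hw)
    obtain ⟨lam, ρ, h1, h2, h3, h4, h5⟩ := hA p q κ.z u v hc a5.1 a6 (a2.trans a3) a8
    have key : ∀ t : unitInterval, u < (t : ℝ) + 1 → (t : ℝ) + 1 < v → p.1 t ∈ S →
        κ.z + q.1 (lam (t + 1)) ∈ S ∧ q.1 (lam (t + 1)) ∈ κ.R.D := by
      intro t ht1 ht2 htS
      have e := h5 ((t : ℝ) + 1) ⟨ht1.le, ht2.le⟩
      refine ⟨?_, mem_D (a7 _ ht1 ht2) e⟩
      rw [← e, hpa]
      exact htS
    refine ⟨{t : unitInterval | u < (t : ℝ) + 1 ∧ (t : ℝ) + 1 < v}, ?_, ?_, ?_⟩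
    · have hopen : IsOpen {t : unitInterval | u < (t : ℝ) + 1 ∧ (t : ℝ) + 1 < v} :=
        (isOpen_lt (f := fun _ : unitInterval => u)
          (g := fun w : unitInterval => (w : ℝ) + 1) continuous_const
          (continuous_subtype_val.add continuous_const)).inter
        (isOpen_lt (f := fun w : unitInterval => (w : ℝ) + 1)
          (g := fun _ : unitInterval => v) (continuous_subtype_val.add continuous_const)
          continuous_const)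
      exact hopen.mem_nhds ⟨a2, a3⟩
    · refine le_trans ?_ a5.2.1
      rw [← Pool.Agent.Y977.LGF.dim_affine h1 ((lam v : ℝ) - ρ * (v - 1)),
        ← Pool.Agent.Y977.LGF.dim_val {s : unitInterval | κ.z + q.1 s ∈ S ∧ q.1 s ∈ κ.R.D}]
      apply dimH_mono
      rintro _ ⟨w, ⟨⟨g1, g2⟩, g3⟩, rfl⟩
      refine ⟨lam (w + 1), key w g1 g2 g3, ?_⟩
      have g4 := h4 _ _ (show (w : ℝ) + 1 ∈ Set.Icc u v from ⟨g1.le, g2.le⟩)
        (show v ∈ Set.Icc u v from ⟨(a2.trans a3).le, le_rfl⟩)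
      change (lam (w + 1) : ℝ) = ρ * (w : ℝ) + ((lam v : ℝ) - ρ * (v - 1))
      linarith
    · intro hS hcon
      exact a5.2.2 hS _ (key w0 a2 a3 hcon)
  constructor
  · by_contra hcon
    push Not at hcon
    obtain ⟨B, hB⟩ : ∃ B, B = {t : unitInterval | ((t : ℝ) < 1 ∧ p.1 t ∈ S) ∧
      p.1 t ∈ Pool.Agent.Y995.LG.sq} := ⟨_, rfl⟩
    have h1 : {t : unitInterval | p.1 t ∈ S ∧ p.1 t ∈ Pool.Agent.Y995.LG.sq} ⊆ B ∪ {1} := by
      rintro t ⟨ht1, ht2⟩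
      rcases lt_or_eq_of_le t.2.2 with g | g
      · left
        rw [hB]
        exact ⟨⟨g, ht1⟩, ht2⟩
      · right
        exact Subtype.ext g
    have h2 := hcon.trans_le (dimH_mono h1)
    rw [dimH_union, dimH_singleton, max_eq_left zero_le] at h2
    obtain ⟨x, hx, hx2⟩ := exists_mem_nhdsWithin_lt_dimH_of_lt_dimH h2
    rw [hB] at hx
    obtain ⟨U, hU, hU2, -⟩ := hlo x hx.1.1 hx.2
    have h3 := hx2 (U ∩ B) (inter_mem (mem_nhdsWithin_of_mem_nhds hU) self_mem_nhdsWithin)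
    refine absurd (h3.trans_le (dimH_mono ?_)) (not_lt.2 hU2)
    rintro t ⟨ht1, ht2⟩
    rw [hB] at ht2
    exact ⟨ht1, ht2.1.2⟩
  · intro hS t ht
    rcases lt_or_eq_of_le t.2.2 with g | g
    · obtain ⟨U, -, -, hU3⟩ := hlo t g ht
      exact hU3 hS
    · have e : t = 1 := Subtype.ext g
      rw [e, ← hc] at ht ⊢
      obtain ⟨U, -, -, hU3⟩ := hlo 0 (by simp) ht
      exact hU3 hS

theorem fix_loc (S : Set ℂ) (κ : Loc) {q : X} (hq : 0 < q.2)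
    (h1 : dimH {s : unitInterval | q.1 s ∈ (fun w => -κ.z + w) '' S ∩ κ.R.D} ≤
      4 / 7 * (dimH ((fun w => -κ.z + w) '' S ∩ κ.R.D) - 1 / 4) ∧
      (dimH ((fun w => -κ.z + w) '' S ∩ κ.R.D) < 1 / 4 →
        ∀ s : unitInterval, q.1 s ∉ (fun w => -κ.z + w) '' S ∩ κ.R.D)) : q ∈ FixG S κ := by
  have hd : dimH ((fun w => -κ.z + w) '' S ∩ κ.R.D) ≤ dimH S := by
    refine (dimH_mono Set.inter_subset_left).trans ?_
    exact ((IsometryEquiv.addLeft (-κ.z)).isometry.dimH_image S).le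
  have he : {s : unitInterval | κ.z + q.1 s ∈ S ∧ q.1 s ∈ κ.R.D} ⊆
      {s : unitInterval | q.1 s ∈ (fun w => -κ.z + w) '' S ∩ κ.R.D} := by
    rintro s ⟨hs1, hs2⟩
    refine ⟨⟨κ.z + q.1 s, hs1, ?_⟩, hs2⟩
    simp
  refine ⟨hq, ?_, ?_⟩
  · refine (dimH_mono he).trans (h1.1.trans ?_)
    gcongr
  · intro hS s hs
    exact h1.2 (hd.trans_lt hS) s (he hs)

end Pool.Agent.Q166.PT
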