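import Pool.Agent.Q166.PT.Tr

/-!
Finite covers of arcs in the open square; local properties of the closed curve.
-/

set_option autoImplicit false

open MeasureTheory Filter Topology
open scoped ENNReal

namespace Pool.Agent.Q166.PT

open Pool.Agent.Y977.LGF

theorem per_shift (c : C(unitInterval, ℂ)) (t : ℝ) : per c (t + 1) = per c t := by
  unfold per
  simp only [Int.fract_add_one]

/-- A finite family of arcs. -/
structure Arcs (G : Set CT) (p : CT) (n : ℕ) where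
  q : Fin n → CT
  z : Fin n → ℂ
  u : Fin n → ℝ
  v : Fin n → ℝ
  lam : Fin n → ℝ → unitInterval
  ρ : Fin n → ℝ
  hq : ∀ i, q i ∈ G
  hD : ∀ i, ArcD p (q i) (z i) (u i) (v i) (lam i) (ρ i)

theorem loc_all {G : Set CT} {p : CT} (hloc : LocG G p) {t0 : ℝ} (h1 : 1 ≤ t0) (h2 : t0 ≤ 2)
    (h3 : per p.1 t0 ∈ sq) : ∃ (u v : ℝ) (z : ℂ) (q : CT), u < t0 ∧ t0 < v ∧ q ∈ G ∧
      SegRel p q z u v ∧ ∃ s, u < s ∧ s < v ∧ per p.1 s ≠ per p.1 u := by
  rcases eq_or_lt_of_le h2 with h | h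
  · have e : t0 = 1 + 1 := by rw [h]; norm_num
    rw [e, per_shift] at h3
    obtain ⟨u, v, z, q, -, a2, a3, -, a5, ⟨u', v', b1, b2, b3, b4, b5⟩, s, c1, c2, c3⟩ :=
      hloc 1 le_rfl (by norm_num) h3
    refine ⟨u + 1, v + 1, z, q, by linarith, by linarith, a5, ⟨u', v', b1, b2, b3, ?_, ?_⟩,
      s + 1, by linarith, by linarith, ?_⟩
    · have : v + 1 - (u + 1) = v - u := by ring
      rw [this]
      exact b4
    · intro x hx hx'
      have : u + 1 + x * (v + 1 - (u + 1)) = u + x * (v - u) + 1 := by ring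
      rw [this, per_shift]
      exact b5 x hx hx'
    · rw [per_shift, per_shift]
      exact c3
  · obtain ⟨u, v, z, q, -, a2, a3, -, a5, a6, a7⟩ := hloc t0 h1 h h3
    exact ⟨u, v, z, q, a2, a3, a5, a6, a7⟩

/-- Every arc in the open square is covered by finitely many arcs, with a Lebesgue number. -/
theorem cover {G : Set CT} {p : CT} (hA : S_ARC) (hG : ∀ q ∈ G, 0 < q.2) (hc : p.1 0 = p.1 1)
    (hloc : LocG G p) {a b : unitInterval} (hab : ∀ t ∈ Set.Icc a b, p.1 t ∈ sq) :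
    ∃ (n : ℕ) (A : Arcs G p n) (η : ℝ), 0 < η ∧ ∀ t ∈ Set.Icc a b, ∃ i,
      A.u i ≤ (t : ℝ) + 1 - η ∧ (t : ℝ) + 1 + η ≤ A.v i := by
  classical
  have hch : ∀ o : Set.Icc a b, ∃ x : (ℝ × ℝ) × ℂ × CT × (ℝ → unitInterval) × ℝ,
      x.1.1 < (o.1 : ℝ) + 1 ∧ (o.1 : ℝ) + 1 < x.1.2 ∧ x.2.2.1 ∈ G ∧
      ArcD p x.2.2.1 x.2.1 x.1.1 x.1.2 x.2.2.2.1 x.2.2.2.2 := by
    rintro ⟨t, ht⟩
    obtain ⟨u, v, z, q, a2, a3, a5, a6, a7⟩ := loc_all hloc (t0 := (t : ℝ) + 1)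
      (by linarith [t.2.1]) (by linarith [t.2.2]) (by
        rw [per_add_one hc]
        exact hab t ht)
    obtain ⟨lam, ρ, h1, h2, h3, h4, h5⟩ := hA p q z u v hc (hG _ a5) a6 (a2.trans a3) a7
    exact ⟨((u, v), z, q, lam, ρ), a2, a3, a5, a2.trans a3, h1, hG _ a5, h3, h4, h5⟩
  choose x hx using hch
  have hcomp : IsCompact (Set.Icc a b) := isCompact_Icc
  obtain ⟨T, hT⟩ := hcomp.elim_finite_subcover
    (fun o : Set.Icc a b => {w : unitInterval | (x o).1.1 < (w : ℝ) + 1 ∧ (w : ℝ) + 1 < (x o).1.2})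
    (fun o => (isOpen_lt (f := fun _ : unitInterval => (x o).1.1)
        (g := fun w : unitInterval => (w : ℝ) + 1) continuous_const
        (continuous_subtype_val.add continuous_const)).inter
      (isOpen_lt (f := fun w : unitInterval => (w : ℝ) + 1)
        (g := fun _ : unitInterval => (x o).1.2) (continuous_subtype_val.add continuous_const)
        continuous_const))
    (fun w hw => Set.mem_iUnion.2 ⟨⟨w, hw⟩, (hx ⟨w, hw⟩).1, (hx ⟨w, hw⟩).2.1⟩)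
  obtain ⟨e⟩ : Nonempty (Fin T.card ≃ T) := ⟨T.equivFin.symm⟩
  let A : Arcs G p T.card :=
    { q := fun i => (x (e i)).2.2.1
      z := fun i => (x (e i)).2.1
      u := fun i => (x (e i)).1.1
      v := fun i => (x (e i)).1.2
      lam := fun i => (x (e i)).2.2.2.1
      ρ := fun i => (x (e i)).2.2.2.2
      hq := fun i => (hx (e i)).2.2.1
      hD := fun i => (hx (e i)).2.2.2 }
  -- the Lebesgue number
  have hcomp' : IsCompact ((fun w : unitInterval => (w : ℝ)) '' Set.Icc a b) :=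
    hcomp.image continuous_subtype_val
  obtain ⟨δ, hδ, hL⟩ := lebesgue_number_lemma_of_metric
    (c := fun i : Fin T.card => {y : ℝ | A.u i < y + 1 ∧ y + 1 < A.v i}) hcomp'
    (fun i => (isOpen_lt (f := fun _ : ℝ => A.u i) (g := fun y : ℝ => y + 1) continuous_const
        (continuous_id.add continuous_const)).inter
      (isOpen_lt (f := fun y : ℝ => y + 1) (g := fun _ : ℝ => A.v i)
        (continuous_id.add continuous_const) continuous_const)) (by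
      rintro _ ⟨w, hw, rfl⟩
      have h1 := hT hw
      rw [Set.mem_iUnion₂] at h1
      obtain ⟨o, ho, h2⟩ := h1
      refine Set.mem_iUnion.2 ⟨e.symm ⟨o, ho⟩, ?_⟩
      show A.u (e.symm ⟨o, ho⟩) < (w : ℝ) + 1 ∧ (w : ℝ) + 1 < A.v (e.symm ⟨o, ho⟩)
      simp only [A, Equiv.apply_symm_apply]
      exact h2)
  refine ⟨T.card, A, δ / 2, by linarith, fun t ht => ?_⟩
  obtain ⟨i, hi⟩ := hL t ⟨t, ht, rfl⟩
  have h1 : (t : ℝ) - δ / 2 ∈ Metric.ball (t : ℝ) δ := by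
    rw [Metric.mem_ball, Real.dist_eq, abs_lt]
    constructor <;> linarith
  have h2 : (t : ℝ) + δ / 2 ∈ Metric.ball (t : ℝ) δ := by
    rw [Metric.mem_ball, Real.dist_eq, abs_lt]
    constructor <;> linarith
  refine ⟨i, ?_, ?_⟩
  · have := (hi h1).1
    linarith
  · have := (hi h2).2
    linarith

/-- distances on an arc -/
theorem dist_arc {p q : CT} {z : ℂ} {u v : ℝ} {lam : ℝ → unitInterval} {ρ : ℝ}
    (hc : p.1 0 = p.1 1) (h : ArcD p q z u v lam ρ) {w w' : unitInterval}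
    (h1 : u ≤ (w : ℝ) + 1) (h2 : (w : ℝ) + 1 ≤ v) (h3 : u ≤ (w' : ℝ) + 1)
    (h4 : (w' : ℝ) + 1 ≤ v) :
    dist (p.1 w) (p.1 w') = dist (q.1 (lam (w + 1))) (q.1 (lam (w' + 1))) := by
  rw [← per_add_one hc w, ← per_add_one hc w', h.hm _ ⟨h1, h2⟩, h.hm _ ⟨h3, h4⟩,
    dist_add_left]

/-- time differences on an arc -/
theorem time_arc {p q : CT} {z : ℂ} {u v : ℝ} {lam : ℝ → unitInterval} {ρ : ℝ}
    (h : ArcD p q z u v lam ρ) {w w' : ℝ}
    (h1 : u ≤ w + 1) (h2 : w + 1 ≤ v) (h3 : u ≤ w' + 1)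
    (h4 : w' + 1 ≤ v) : q.2 * ((lam (w' + 1) : ℝ) - lam (w + 1)) = p.2 * (w' - w) := by
  rw [h.hl _ _ ⟨h1, h2⟩ ⟨h3, h4⟩, h.hpq]
  ring

/-! ### Modulus of continuity -/

/-- The modulus of continuity `g` is exact for `q`. -/
def ModG (g : ℝ → ℝ) : Set CT :=
  {q | 0 < q.2 ∧ ∃ c C : ℝ, 0 < c ∧ 0 < C ∧ ∀ a b : unitInterval, a < b → ∃ h0 : ℝ, 0 < h0 ∧
    ∀ h : ℝ, 0 < h → h < h0 →
      (∃ s t : unitInterval, a ≤ s ∧ s ≤ t ∧ t ≤ b ∧ ((t : ℝ) - s) * q.2 ≤ h ∧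
        c * g h ≤ dist (q.1 s) (q.1 t)) ∧
      (∀ s t : unitInterval, |(s : ℝ) - t| * q.2 ≤ h → dist (q.1 s) (q.1 t) ≤ C * g h)}

theorem mod_exact {g : ℝ → ℝ} (hg : ∀ᶠ h : ℝ in 𝓝[>] 0, 0 ≤ g h) {G : Set CT} {p : CT}
    (hA : S_ARC) (hG : G ⊆ ModG g) (hc : p.1 0 = p.1 1) (hloc : LocG G p) {a b : unitInterval}
    (hab : a < b) (hin : ∀ t ∈ Set.Icc a b, p.1 t ∈ sq) :
    ∃ c C h0 : ℝ, 0 < c ∧ 0 < C ∧ 0 < h0 ∧ ∀ h : ℝ, 0 < h → h < h0 →
      (∃ s t : unitInterval, a ≤ s ∧ s ≤ t ∧ t ≤ b ∧ ((t : ℝ) - s) * p.2 ≤ h ∧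
        c * g h ≤ dist (p.1 s) (p.1 t)) ∧
      (∀ s t : unitInterval, s ∈ Set.Icc a b → t ∈ Set.Icc a b → |(s : ℝ) - t| * p.2 ≤ h →
        dist (p.1 s) (p.1 t) ≤ C * g h) := by
  obtain ⟨n, A, η, hη, hcov⟩ := cover hA (fun q hq => (hG hq).1) hc hloc hin
  have hab' : (a : ℝ) < b := hab
  -- constants
  have hconst : ∀ i, ∃ C h0 : ℝ, 0 < C ∧ 0 < h0 ∧ ∀ h : ℝ, 0 < h → h < h0 →
      ∀ s t : unitInterval, |(s : ℝ) - t| * (A.q i).2 ≤ h →
        dist ((A.q i).1 s) ((A.q i).1 t) ≤ C * g h := by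
    intro i
    obtain ⟨-, c, C, hc, hC, h1⟩ := hG (A.hq i)
    obtain ⟨h0, hh0, h2⟩ := h1 0 1 zero_lt_one
    exact ⟨C, h0, hC, hh0, fun h h3 h4 => (h2 h h3 h4).2⟩
  choose C h0 hC hh0 hup using hconst
  obtain ⟨C', hC', hCC⟩ : ∃ C' : ℝ, 0 < C' ∧ ∀ i, C i ≤ C' := by
    refine ⟨1 + ∑ i, C i, ?_, fun i => ?_⟩
    · have := Finset.sum_nonneg (fun i (_ : i ∈ Finset.univ) => (hC i).le)
      linarith
    · have := Finset.single_le_sum (fun i (_ : i ∈ Finset.univ) => (hC i).le) (Finset.mem_univ i)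
      linarith
  have hev : ∀ᶠ h : ℝ in 𝓝[>] 0, ∀ i, h < h0 i := by
    rw [eventually_all]
    intro i
    filter_upwards [Ioo_mem_nhdsGT (hh0 i)] with h hh using hh.2
  -- the lower bound
  obtain ⟨i0, hi1, hi2⟩ := hcov a ⟨le_rfl, hab.le⟩
  have hp := (A.hD i0).hp
  obtain ⟨b', hb'⟩ : ∃ b' : ℝ, b' = min (b : ℝ) (a + η) := ⟨_, rfl⟩
  have hb1 : (a : ℝ) < b' := by rw [hb']; exact lt_min hab' (by linarith)
  have hb2 : b' ≤ b := by rw [hb']; exact min_le_left _ _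
  have hb3 : b' ≤ a + η := by rw [hb']; exact min_le_right _ _
  have hρ0 := (A.hD i0).hρ
  have hlt : A.lam i0 ((a : ℝ) + 1) < A.lam i0 (b' + 1) := by
    have h1 := (A.hD i0).hl ((a : ℝ) + 1) (b' + 1) ⟨by linarith, by linarith⟩
      ⟨by linarith, by linarith⟩
    have h2 : 0 < A.ρ i0 * (b' + 1 - ((a : ℝ) + 1)) := mul_pos hρ0 (by linarith)
    change (A.lam i0 ((a : ℝ) + 1) : ℝ) < A.lam i0 (b' + 1)
    linarith
  obtain ⟨-, c, C1, hc0, -, hlow⟩ := hG (A.hq i0)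
  obtain ⟨h1, hh1, hlow⟩ := hlow _ _ hlt
  have hall : ∀ᶠ h : ℝ in 𝓝[>] 0, (∀ i, h < h0 i) ∧ 0 ≤ g h ∧ h < h1 ∧ h < p.2 * η := by
    filter_upwards [hev, hg, Ioo_mem_nhdsGT hh1, Ioo_mem_nhdsGT (mul_pos hp hη)]
      with h l1 l2 l3 l4 using ⟨l1, l2, l3.2, l4.2⟩
  obtain ⟨H, hH, hH2⟩ := mem_nhdsGT_iff_exists_Ioo_subset.1 hall
  refine ⟨c, C', H, hc0, hC', hH, fun h hh hhH => ?_⟩
  obtain ⟨k1, k2, k3, k4⟩ := hH2 ⟨hh, hhH⟩
  constructor
  · obtain ⟨s, t, m1, m2, m3, m4, m5⟩ := (hlow h hh k3).1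
    have m1' : (A.lam i0 ((a : ℝ) + 1) : ℝ) ≤ s := m1
    have m2' : (s : ℝ) ≤ t := m2
    have m3' : (t : ℝ) ≤ A.lam i0 (b' + 1) := m3
    have hlin := (A.hD i0).hl ((a : ℝ) + 1) (b' + 1) ⟨by linarith, by linarith⟩
      ⟨by linarith, by linarith⟩
    -- the times of `p`
    have hback : ∀ y : unitInterval, (A.lam i0 ((a : ℝ) + 1) : ℝ) ≤ y →
        (y : ℝ) ≤ A.lam i0 (b' + 1) → ∃ x : unitInterval, a ≤ x ∧ (x : ℝ) ≤ b' ∧
          A.lam i0 ((x : ℝ) + 1) = y ∧ A.ρ i0 * ((x : ℝ) - a) = y - A.lam i0 ((a : ℝ) + 1) := by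
      intro y hy1 hy2
      have e1 : A.ρ i0 * (((y : ℝ) - A.lam i0 ((a : ℝ) + 1)) / A.ρ i0) =
          y - A.lam i0 ((a : ℝ) + 1) := by
        field_simp
      have e2 : 0 ≤ ((y : ℝ) - A.lam i0 ((a : ℝ) + 1)) / A.ρ i0 :=
        div_nonneg (by linarith) hρ0.le
      have e3 : ((y : ℝ) - A.lam i0 ((a : ℝ) + 1)) / A.ρ i0 ≤ b' - a := by
        rw [div_le_iff₀ hρ0]
        nlinarith [hlin]
      have e4 : (a : ℝ) + ((y : ℝ) - A.lam i0 ((a : ℝ) + 1)) / A.ρ i0 ∈ unitInterval :=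
        ⟨by linarith [a.2.1], by linarith [b.2.2]⟩
      refine ⟨⟨_, e4⟩, ?_, ?_, ?_, ?_⟩
      · change (a : ℝ) ≤ a + _
        linarith
      · change (a : ℝ) + _ ≤ b'
        linarith
      · apply Subtype.ext
        have e5 := (A.hD i0).hl ((a : ℝ) + 1)
          ((a : ℝ) + ((y : ℝ) - A.lam i0 ((a : ℝ) + 1)) / A.ρ i0 + 1) ⟨by linarith, by linarith⟩
          ⟨by linarith, by linarith⟩
        have e6 : (a : ℝ) + ((y : ℝ) - A.lam i0 ((a : ℝ) + 1)) / A.ρ i0 + 1 - ((a : ℝ) + 1) =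
            ((y : ℝ) - A.lam i0 ((a : ℝ) + 1)) / A.ρ i0 := by ring
        rw [e6, e1] at e5
        linarith
      · change A.ρ i0 * ((a : ℝ) + ((y : ℝ) - A.lam i0 ((a : ℝ) + 1)) / A.ρ i0 - a) = _
        rw [add_sub_cancel_left, e1]
    obtain ⟨x, x1, x2, x3, x4⟩ := hback s m1' (by linarith)
    obtain ⟨x', y1, y2, y3, y4⟩ := hback t (by linarith) m3'
    have x1' : (a : ℝ) ≤ x := x1
    have y1' : (a : ℝ) ≤ x' := y1
    have hxx : x ≤ x' := by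
      have : A.ρ i0 * ((x : ℝ) - a) ≤ A.ρ i0 * ((x' : ℝ) - a) := by rw [x4, y4]; linarith
      have h3 := le_of_mul_le_mul_left this hρ0
      change (x : ℝ) ≤ x'
      linarith
    refine ⟨x, x', x1, hxx, ?_, ?_, ?_⟩
    · change (x' : ℝ) ≤ b
      linarith
    · have h3 := time_arc (A.hD i0) (w := (x : ℝ)) (w' := (x' : ℝ)) (by linarith) (by linarith)
        (by linarith) (by linarith)
      rw [x3, y3] at h3
      rw [mul_comm, ← h3, mul_comm]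
      exact m4
    · rw [dist_arc hc (A.hD i0) (w := x) (w' := x') (by linarith) (by linarith)
        (by linarith) (by linarith), x3, y3]
      exact m5
  · intro s t hs ht hst
    obtain ⟨i, j1, j2⟩ := hcov s hs
    have h3 : |(s : ℝ) - t| < η := by
      have h4 : p.2 * |(s : ℝ) - t| < p.2 * η := by
        rw [mul_comm]
        linarith
      exact lt_of_mul_lt_mul_left h4 hp.le
    have h5 := abs_lt.1 h3
    rw [dist_arc hc (A.hD i) (w := s) (w' := t) (by linarith) (by linarith) (by linarith)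
      (by linarith)]
    refine (hup i h hh (k1 i) _ _ ?_).trans (mul_le_mul_of_nonneg_right (hCC i) k2)
    have h6 := time_arc (A.hD i) (w := (t : ℝ)) (w' := (s : ℝ)) (by linarith) (by linarith)
      (by linarith) (by linarith)
    have h7 : |((A.lam i ((s : ℝ) + 1) : ℝ) - A.lam i ((t : ℝ) + 1))| * (A.q i).2 =
        |(s : ℝ) - t| * p.2 := by
      have h8 : |(A.q i).2 * ((A.lam i ((s : ℝ) + 1) : ℝ) - A.lam i ((t : ℝ) + 1))| =
          |p.2 * ((s : ℝ) - t)| := by rw [h6]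
      rw [abs_mul, abs_mul, abs_of_pos (A.hD i).hq, abs_of_pos hp] at h8
      linarith
    rw [h7]
    exact hst

end Pool.Agent.Q166.PT
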