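import Pool.Agent.Q166.PT.Tr

/-!
The dimension of the set of thick times of a closed curve, from the thick times of its arcs.
-/

set_option autoImplicit false

open MeasureTheory Filter Topology
open scoped ENNReal

namespace Pool.Agent.Q166.PT

open Pool.Agent.Y977.LGF

/-- Thick times. -/
def Th (θ : ℝ) (p : CT) : Set unitInterval :=
  {u | ∃ᶠ r : ℝ in 𝓝[>] 0, θ * (r ^ (7/4 : ℝ) * Real.log (1 / r) ^ (1/8 : ℝ)) ≤
    p.2 * (volume {v : unitInterval | dist (p.1 v) (p.1 u) ≤ r}).toReal}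

/-- Times at which the curve is at a double point. -/
def Db (f : C(unitInterval, ℂ)) : Set unitInterval := {s | ∃ t, t ≠ s ∧ f t = f s}

theorem per_eq {p : CT} (hc : p.1 0 = p.1 1) (w : unitInterval) : per p.1 ((w : ℝ) + 1) = p.1 w :=
  per_add_one hc w

/-- Thick times of the curve at simple points are thick times of the arc. -/
theorem th_arc {p q : CT} {z : ℂ} {u v : ℝ} {lam : ℝ → unitInterval} {ρ : ℝ}
    (hc : p.1 0 = p.1 1) (h : ArcD p q z u v lam ρ) {θ : ℝ} {w : unitInterval}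
    (h1 : u < (w : ℝ) + 1) (h2 : (w : ℝ) + 1 < v) (hs : w ∉ Db p.1) (hw : w ∈ Th θ p) :
    lam (w + 1) ∈ Th θ q := by
  have hp := h.hp
  have hρ := h.hρ
  obtain ⟨η, hη⟩ : ∃ η, η = min ((w : ℝ) + 1 - u) (v - (w + 1)) := ⟨_, rfl⟩
  have hη0 : 0 < η := by rw [hη]; exact lt_min (by linarith) (by linarith)
  have hη1 : η ≤ (w : ℝ) + 1 - u := by rw [hη]; exact min_le_left _ _
  have hη2 : η ≤ v - (w + 1) := by rw [hη]; exact min_le_right _ _
  have hsim : ∀ x, p.1 x = p.1 w → x = w := by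
    intro x hx
    by_contra hne
    exact hs ⟨x, hne, hx⟩
  obtain ⟨r0, hr0, hnear⟩ := near_time p.1 w hsim hη0
  refine Filter.Frequently.mp hw ?_
  filter_upwards [Ioo_mem_nhdsGT hr0] with r hr
  intro hth
  refine hth.trans ?_
  have hA : ∀ x ∈ {x : unitInterval | dist (p.1 x) (p.1 w) ≤ r}, u < (x : ℝ) + 1 ∧
      (x : ℝ) + 1 < v := by
    intro x hx
    have h3 := abs_lt.1 (hnear x (le_trans hx hr.2.le))
    constructor <;> linarith
  have hvol := vol_map hρ (fun x : unitInterval => lam ((x : ℝ) + 1))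
    {x : unitInterval | dist (p.1 x) (p.1 w) ≤ r} (fun s hs t ht => by
      have h3 := h.hl _ _ ⟨(hA s hs).1.le, (hA s hs).2.le⟩ ⟨(hA t ht).1.le, (hA t ht).2.le⟩
      rw [h3]
      ring)
  have hsub : (fun x : unitInterval => lam ((x : ℝ) + 1)) ''
      {x : unitInterval | dist (p.1 x) (p.1 w) ≤ r} ⊆
      {y : unitInterval | dist (q.1 y) (q.1 (lam (w + 1))) ≤ r} := by
    rintro _ ⟨x, hx, rfl⟩
    change dist _ _ ≤ r
    rw [← arc_dist hc h.hm (hA x hx).1 (hA x hx).2 h1 h2]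
    exact hx
  have h4 := measure_mono (μ := volume) hsub
  rw [hvol] at h4
  have h5 : ρ * (volume {x : unitInterval | dist (p.1 x) (p.1 w) ≤ r}).toReal ≤
      (volume {y : unitInterval | dist (q.1 y) (q.1 (lam (w + 1))) ≤ r}).toReal := by
    have h6 := ENNReal.toReal_mono (measure_ne_top _ _) h4
    rwa [ENNReal.toReal_mul, ENNReal.toReal_ofReal hρ.le] at h6
  rw [h.hpq, mul_assoc]
  exact mul_le_mul_of_nonneg_left h5 h.hq.le

/-- Thick times of the arc at simple points are thick times of the curve. -/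
theorem arc_th {p q : CT} {z : ℂ} {u v : ℝ} {lam : ℝ → unitInterval} {ρ : ℝ}
    (hc : p.1 0 = p.1 1) (h : ArcD p q z u v lam ρ) {θ : ℝ} {w : unitInterval}
    (h1 : u < (w : ℝ) + 1) (h2 : (w : ℝ) + 1 < v) (h0 : 0 < (w : ℝ)) (h01 : (w : ℝ) < 1)
    (hs : lam (w + 1) ∉ Db q.1) (hw : lam (w + 1) ∈ Th θ q) : w ∈ Th θ p := by
  have hρ := h.hρ
  obtain ⟨η, hη⟩ : ∃ η, η = min (min ((w : ℝ) + 1 - u) (v - (w + 1))) (min (w : ℝ) (1 - w)) :=
    ⟨_, rfl⟩
  have hη0 : 0 < η := by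
    rw [hη]
    exact lt_min (lt_min (by linarith) (by linarith)) (lt_min h0 (by linarith))
  have g1 : η ≤ (w : ℝ) + 1 - u := by rw [hη]; exact (min_le_left _ _).trans (min_le_left _ _)
  have g2 : η ≤ v - (w + 1) := by rw [hη]; exact (min_le_left _ _).trans (min_le_right _ _)
  have g3 : η ≤ w := by rw [hη]; exact (min_le_right _ _).trans (min_le_left _ _)
  have g4 : η ≤ 1 - w := by rw [hη]; exact (min_le_right _ _).trans (min_le_right _ _)
  have hsim : ∀ x, q.1 x = q.1 (lam (w + 1)) → x = lam (w + 1) := by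
    intro x hx
    by_contra hne
    exact hs ⟨x, hne, hx⟩
  obtain ⟨r0, hr0, hnear⟩ := near_time q.1 (lam (w + 1)) hsim (mul_pos hρ hη0)
  refine Filter.Frequently.mp hw ?_
  filter_upwards [Ioo_mem_nhdsGT hr0] with r hr
  intro hth
  refine hth.trans ?_
  obtain ⟨A, hA⟩ : ∃ A : Set unitInterval, A = {x : unitInterval | |(x : ℝ) - w| < η ∧
    dist (p.1 x) (p.1 w) ≤ r} := ⟨_, rfl⟩
  have hin : ∀ x ∈ A, u < (x : ℝ) + 1 ∧ (x : ℝ) + 1 < v := by
    intro x hx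
    rw [hA] at hx
    have h3 := abs_lt.1 hx.1
    constructor <;> linarith
  have hvol := vol_map hρ (fun x : unitInterval => lam ((x : ℝ) + 1)) A (fun s hs t ht => by
      have h3 := h.hl _ _ ⟨(hin s hs).1.le, (hin s hs).2.le⟩ ⟨(hin t ht).1.le, (hin t ht).2.le⟩
      rw [h3]
      ring)
  have hsub : {y : unitInterval | dist (q.1 y) (q.1 (lam (w + 1))) ≤ r} ⊆
      (fun x : unitInterval => lam ((x : ℝ) + 1)) '' A := by
    intro y hy
    have h3 := hnear y (le_trans hy hr.2.le)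
    obtain ⟨x, hx1, hx2, hx3⟩ := h.back (w := (w : ℝ) + 1) (η := η) (by linarith) (by linarith) hη0
      (y := (y : ℝ)) h3
    have h4 := abs_lt.1 hx1
    have h5 : x - 1 ∈ unitInterval := ⟨by linarith, by linarith⟩
    have h6 : lam x = y := Subtype.ext hx3
    have hw1 : |(x - 1) - w| < η := by
      have : x - 1 - (w : ℝ) = x - (w + 1) := by ring
      rw [this]
      exact hx1
    refine ⟨⟨x - 1, h5⟩, ?_, ?_⟩
    · rw [hA]
      refine ⟨hw1, ?_⟩
      rw [arc_dist (w := ⟨x - 1, h5⟩) hc h.hm (by change u < x - 1 + 1; linarith)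
        (by change x - 1 + 1 < v; linarith) h1 h2]
      change dist (q.1 (lam (x - 1 + 1))) _ ≤ r
      rw [sub_add_cancel, h6]
      exact hy
    · change lam (x - 1 + 1) = y
      rw [sub_add_cancel, h6]
  have h4 : volume {y : unitInterval | dist (q.1 y) (q.1 (lam (w + 1))) ≤ r} ≤
      ENNReal.ofReal ρ * volume {x : unitInterval | dist (p.1 x) (p.1 w) ≤ r} := by
    refine (measure_mono hsub).trans ?_
    rw [hvol]
    refine mul_le_mul_right ?_ _
    refine measure_mono ?_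
    intro x hx
    rw [hA] at hx
    exact hx.2
  have h5 : (volume {y : unitInterval | dist (q.1 y) (q.1 (lam (w + 1))) ≤ r}).toReal ≤
      ρ * (volume {x : unitInterval | dist (p.1 x) (p.1 w) ≤ r}).toReal := by
    have h6 := ENNReal.toReal_mono (ENNReal.mul_ne_top ENNReal.ofReal_ne_top (measure_ne_top _ _))
      h4
    rwa [ENNReal.toReal_mul, ENNReal.toReal_ofReal hρ.le] at h6
  rw [h.hpq, mul_assoc]
  exact mul_le_mul_of_nonneg_left h5 h.hq.le

/-- Properties of the exploration paths. -/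
def TG (c C θ0 : ℝ) : Set CT :=
  {q | 0 < q.2 ∧ dimH (Db q.1) ≤ 3 / 7 ∧
    ∀ θ : ℝ, 0 < θ → θ ≤ θ0 → dimH (Th θ q) ≤ ENNReal.ofReal (1 - c * θ ^ 8) ∧
      ∀ s t : unitInterval, s < t → ENNReal.ofReal (1 - C * θ ^ 8) ≤
        dimH (Set.Icc s t ∩ Th θ q)}

/-- the dimension of the set of thick times -/
theorem thick (hA : S_ARC) (hC : S_COV) {c C θ0 : ℝ} {G : Set CT} {p : CT} (hG : G ⊆ TG c C θ0)
    (hC0 : 0 < C) (hCθ : C * θ0 ^ 8 ≤ 1 / 2)
    (hc : p.1 0 = p.1 1) (hsq : ∃ t, p.1 t ∈ sq)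
    (hvol : volume {t : unitInterval | p.1 t ∉ sq} = 0) (hloc : LocG G p)
    (hdb : dimH {w | p.1 w ∈ sq ∧ 0 < w ∧ w < 1 ∧ w ∈ Db p.1} ≤ 3 / 7)
    {θ : ℝ} (hθ : 0 < θ) (hθ0 : θ ≤ θ0) {s t : unitInterval} (hst : s < t) :
    ENNReal.ofReal (1 - C * θ ^ 8) ≤
      dimH {u | u ∈ Set.Icc s t ∧ p.1 u ∈ sq ∧ u ∈ Th θ p} ∧
    dimH {u | u ∈ Set.Icc s t ∧ p.1 u ∈ sq ∧ u ∈ Th θ p} ≤ ENNReal.ofReal (1 - c * θ ^ 8) := by
  have hGq : ∀ q ∈ G, 0 < q.2 := fun q hq => (hG hq).1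
  have h12 : 1 / 2 ≤ 1 - C * θ ^ 8 := by
    have h1 : C * θ ^ 8 ≤ C * θ0 ^ 8 :=
      mul_le_mul_of_nonneg_left (pow_le_pow_left₀ hθ.le hθ0 8) hC0.le
    linarith
  have h37 : (3 / 7 : ℝ≥0∞) = ENNReal.ofReal (3 / 7) := by
    rw [ENNReal.ofReal_div_of_pos (by norm_num)]
    norm_num
  have hlt : (3 / 7 : ℝ≥0∞) < ENNReal.ofReal (1 - C * θ ^ 8) := by
    rw [h37]
    exact (ENNReal.ofReal_lt_ofReal_iff (by linarith)).2 (by linarith)
  constructor
  · refine dim_lower hC hA hGq hc hsq hloc hvol (Th θ p) (fun q => Th θ q \ Db q.1) _ ?_ ?_ hst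
    · intro q hq a b hab
      have h1 := ((hG hq).2.2 θ hθ hθ0).2 a b hab
      have h2 : Set.Icc a b ∩ Th θ q ⊆ (Set.Icc a b ∩ (Th θ q \ Db q.1)) ∪ Db q.1 := by
        rintro x ⟨hx1, hx2⟩
        by_cases hx : x ∈ Db q.1
        · exact Or.inr hx
        · exact Or.inl ⟨hx1, hx2, hx⟩
      have h3 := h1.trans (dimH_mono h2)
      rw [dimH_union] at h3
      rcases le_max_iff.1 h3 with h4 | h4
      · exact h4
      · exact absurd (h4.trans (hG hq).2.1) (not_le.2 hlt)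
    · intro q hq z u v lam ρ hD w h1 h2 h3 h4 _ h5
      exact arc_th hc hD h1 h2 h3 h4 h5.2 h5.1
  · -- there is an element of `G`
    obtain ⟨q0, hq0⟩ : ∃ q, q ∈ G := by
      obtain ⟨u, v, z, q, hi, -⟩ := hC G p hc hsq hloc
      exact ⟨q 0, (hi 0).2.2.2.1⟩
    have hcC : ENNReal.ofReal (1 - C * θ ^ 8) ≤ ENNReal.ofReal (1 - c * θ ^ 8) := by
      have h1 := (hG hq0).2.2 θ hθ hθ0
      exact (h1.2 0 1 zero_lt_one).trans ((dimH_mono Set.inter_subset_right).trans h1.1)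
    have hup := dim_upper hC hA hGq hc hsq hloc {w | w ∉ Db p.1 ∧ w ∈ Th θ p} (fun q => Th θ q)
      (ENNReal.ofReal (1 - c * θ ^ 8)) (fun q hq => ((hG hq).2.2 θ hθ hθ0).1)
      (fun q hq z u v lam ρ hD w h1 h2 _ h3 => th_arc hc hD h1 h2 h3.1 h3.2)
    have hsub : {u | u ∈ Set.Icc s t ∧ p.1 u ∈ sq ∧ u ∈ Th θ p} ⊆
        ({(0 : unitInterval)} ∪ {(1 : unitInterval)}) ∪
        ({w | p.1 w ∈ sq ∧ 0 < w ∧ w < 1 ∧ w ∈ Db p.1} ∪
        {w | p.1 w ∈ sq ∧ w ∈ {w | w ∉ Db p.1 ∧ w ∈ Th θ p}}) := by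
      rintro w ⟨-, h1, h2⟩
      by_cases h0 : w = 0
      · exact Or.inl (Or.inl h0)
      by_cases h01 : w = 1
      · exact Or.inl (Or.inr h01)
      have h3 : 0 < w := lt_of_le_of_ne unitInterval.nonneg' (Ne.symm h0)
      have h4 : w < 1 := lt_of_le_of_ne unitInterval.le_one' h01
      by_cases hx : w ∈ Db p.1
      · exact Or.inr (Or.inl ⟨h1, h3, h4, hx⟩)
      · exact Or.inr (Or.inr ⟨h1, hx, h2⟩)
    refine (dimH_mono hsub).trans ?_
    rw [dimH_union, dimH_union, dimH_union, dimH_singleton, dimH_singleton]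
    exact max_le (max_le bot_le bot_le) (max_le ((hdb.trans hlt.le).trans hcC) hup)

end Pool.Agent.Q166.PT
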