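import Pool.Agent.Q166.PT.Grid
import Pool.Agent.Q166.PT.Thick

/-!
Areas of neighbourhoods of the arcs of a curve which is locally a translate of arcs of nice curves.
-/

set_option autoImplicit false

open MeasureTheory Filter Topology
open scoped ENNReal

namespace Pool.Agent.Q166.PT

open Pool.Agent.Y977.LGF

/-- two-sided bounds for a long arc -/
def Two (f : C(unitInterval, ℂ)) (c C T ρ : ℝ) (s t : unitInterval) : Prop :=
  C * ρ ^ (7/4 : ℝ) * Real.log (1 / ρ) ≤ T * ((t : ℝ) - s) →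
    c * (T * ((t : ℝ) - s)) * ρ ^ (1/4 : ℝ) ≤ V f ρ (Set.Icc s t) ∧
    V f ρ (Set.Icc s t) ≤ C * (T * ((t : ℝ) - s)) * ρ ^ (1/4 : ℝ)

/-- The property of the exploration paths. -/
def MinkG (c C : ℝ) : Set CT :=
  {q | 0 < q.2 ∧ ∀ᶠ ρ : ℝ in 𝓝[>] 0, ∀ s t : unitInterval, s ≤ t → Two q.1 c C q.2 ρ s t}

theorem thr {C : ℝ} {η : ℝ} (hη : 0 < η) :
    ∀ᶠ ρ : ℝ in 𝓝[>] 0, C * ρ ^ (7/4 : ℝ) * Real.log (1 / ρ) < η := by
  have h1 : Tendsto (fun x : ℝ => -C * (Real.log x * x ^ (7/4 : ℝ))) (𝓝[>] 0) (𝓝 (-C * 0)) :=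
    (tendsto_log_mul_rpow_nhdsGT_zero (by norm_num)).const_mul _
  rw [mul_zero] at h1
  filter_upwards [h1.eventually (gt_mem_nhds hη)] with ρ hρ
  rw [one_div, Real.log_inv]
  linarith

/-! ### One arc -/

theorem pull {p q : CT} {z : ℂ} {u v : ℝ} {lam : ℝ → unitInterval} {ρ : ℝ}
    (h : ArcD p q z u v lam ρ) {s t : unitInterval} (hst : s ≤ t) (h1 : u ≤ (s : ℝ) + 1)
    (h2 : (t : ℝ) + 1 ≤ v) {y : unitInterval} (hy1 : lam (s + 1) ≤ y) (hy2 : y ≤ lam (t + 1)) :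
    ∃ x : unitInterval, s ≤ x ∧ x ≤ t ∧ lam (x + 1) = y := by
  have hρ := h.hρ
  have hst' : (s : ℝ) ≤ t := hst
  have hy1' : (lam ((s : ℝ) + 1) : ℝ) ≤ y := hy1
  have hy2' : (y : ℝ) ≤ lam ((t : ℝ) + 1) := hy2
  have hlin := h.hl ((s : ℝ) + 1) (t + 1) ⟨h1, by linarith⟩ ⟨by linarith, h2⟩
  obtain ⟨d, hd⟩ : ∃ d, d = ((y : ℝ) - lam ((s : ℝ) + 1)) / ρ := ⟨_, rfl⟩
  have e1 : ρ * d = y - lam ((s : ℝ) + 1) := by
    rw [hd]
    field_simp
  have e2 : 0 ≤ d := by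
    rw [hd]
    exact div_nonneg (by linarith) hρ.le
  have e3 : d ≤ t - s := by
    by_contra hcon
    push Not at hcon
    have := mul_lt_mul_of_pos_left hcon hρ
    have e : ρ * ((t : ℝ) + 1 - (s + 1)) = ρ * (t - s) := by ring
    linarith
  have e4 : (s : ℝ) + d ∈ unitInterval := ⟨by linarith [s.2.1], by linarith [t.2.2]⟩
  refine ⟨⟨_, e4⟩, ?_, ?_, ?_⟩
  · change (s : ℝ) ≤ s + d
    linarith
  · change (s : ℝ) + d ≤ t
    linarith
  · apply Subtype.ext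
    change (lam ((s : ℝ) + d + 1) : ℝ) = y
    have e5 := h.hl ((s : ℝ) + 1) ((s : ℝ) + d + 1) ⟨h1, by linarith⟩
      ⟨by linarith, by linarith⟩
    have e6 : (s : ℝ) + d + 1 - ((s : ℝ) + 1) = d := by ring
    rw [e6, e1] at e5
    linarith

theorem image_arc {p q : CT} {z : ℂ} {u v : ℝ} {lam : ℝ → unitInterval} {ρ : ℝ}
    (hc : p.1 0 = p.1 1) (h : ArcD p q z u v lam ρ) {s t : unitInterval} (hst : s ≤ t)
    (h1 : u ≤ (s : ℝ) + 1) (h2 : (t : ℝ) + 1 ≤ v) :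
    p.1 '' Set.Icc s t = (fun x => z + x) '' (q.1 '' Set.Icc (lam (s + 1)) (lam (t + 1))) := by
  have hst' : (s : ℝ) ≤ t := hst
  have hρ := h.hρ
  ext w
  constructor
  · rintro ⟨x, hx, rfl⟩
    have x1 : (s : ℝ) ≤ x := hx.1
    have x2 : (x : ℝ) ≤ t := hx.2
    refine ⟨q.1 (lam (x + 1)), ⟨lam (x + 1), ⟨?_, ?_⟩, rfl⟩, ?_⟩
    · change (lam ((s : ℝ) + 1) : ℝ) ≤ lam ((x : ℝ) + 1)
      have h3 := h.hl ((s : ℝ) + 1) (x + 1) ⟨h1, by linarith⟩ ⟨by linarith, by linarith⟩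
      have : 0 ≤ ρ * ((x : ℝ) + 1 - (s + 1)) := mul_nonneg hρ.le (by linarith)
      linarith
    · change (lam ((x : ℝ) + 1) : ℝ) ≤ lam ((t : ℝ) + 1)
      have h3 := h.hl ((x : ℝ) + 1) (t + 1) ⟨by linarith, by linarith⟩ ⟨by linarith, by linarith⟩
      have : 0 ≤ ρ * ((t : ℝ) + 1 - (x + 1)) := mul_nonneg hρ.le (by linarith)
      linarith
    · change z + q.1 (lam (x + 1)) = p.1 x
      rw [← h.hm ((x : ℝ) + 1) ⟨by linarith, by linarith⟩, per_add_one hc]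
  · rintro ⟨_, ⟨y, hy, rfl⟩, rfl⟩
    obtain ⟨x, x1, x2, x3⟩ := pull h hst h1 h2 hy.1 hy.2
    have x1' : (s : ℝ) ≤ x := x1
    have x2' : (x : ℝ) ≤ t := x2
    refine ⟨x, ⟨x1, x2⟩, ?_⟩
    change p.1 x = z + q.1 y
    rw [← per_add_one hc x, h.hm ((x : ℝ) + 1) ⟨by linarith, by linarith⟩, x3]

theorem thick_trans (z : ℂ) (r : ℝ) (A : Set ℂ) :
    volume (Metric.thickening r ((fun x => z + x) '' A)) = volume (Metric.thickening r A) := by
  have h : (fun x => z + x) ⁻¹' (Metric.thickening r ((fun x => z + x) '' A)) =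
      Metric.thickening r A := by
    ext w
    simp only [Set.mem_preimage, Metric.mem_thickening_iff]
    constructor
    · rintro ⟨_, ⟨a, ha, rfl⟩, h⟩
      refine ⟨a, ha, ?_⟩
      rwa [dist_add_left] at h
    · rintro ⟨a, ha, h⟩
      refine ⟨z + a, ⟨a, ha, rfl⟩, ?_⟩
      rwa [dist_add_left]
  rw [← h, measure_preimage_add]

theorem V_arc {p q : CT} {z : ℂ} {u v : ℝ} {lam : ℝ → unitInterval} {ρ : ℝ}
    (hc : p.1 0 = p.1 1) (h : ArcD p q z u v lam ρ) {s t : unitInterval} (hst : s ≤ t)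
    (h1 : u ≤ (s : ℝ) + 1) (h2 : (t : ℝ) + 1 ≤ v) (r : ℝ) :
    V p.1 r (Set.Icc s t) = V q.1 r (Set.Icc (lam (s + 1)) (lam (t + 1))) := by
  unfold V
  rw [image_arc hc h hst h1 h2, thick_trans]

/-- The local property. -/
def LocTwo (f : C(unitInterval, ℂ)) (O : Set unitInterval) (c C T : ℝ) : Prop :=
  ∀ t0 ∈ O, ∃ δ : ℝ, 0 < δ ∧ ∀ᶠ ρ : ℝ in 𝓝[>] 0, ∀ s t : unitInterval, s ≤ t →
    |(s : ℝ) - t0| ≤ δ → |(t : ℝ) - t0| ≤ δ → Two f c C T ρ s t

theorem loc_two {G : Set CT} {p : CT} {c C : ℝ} (hA : S_ARC) (hG : G ⊆ MinkG c C)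
    (hc : p.1 0 = p.1 1) (hloc : LocG G p) :
    LocTwo p.1 {t | p.1 t ∈ Pool.Agent.Y977.LGF.sq} c C p.2 := by
  intro t0 ht0
  obtain ⟨u, v, z, q, a2, a3, a5, a6, a7⟩ := loc_all hloc (t0 := (t0 : ℝ) + 1)
    (by linarith [t0.2.1]) (by linarith [t0.2.2]) (by
      rw [per_add_one hc]
      exact ht0)
  obtain ⟨lam, r, h1, h2, h3, h4, h5⟩ := hA p q z u v hc (hG a5).1 a6 (a2.trans a3) a7
  have hD : ArcD p q z u v lam r := ⟨a2.trans a3, h1, (hG a5).1, h3, h4, h5⟩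
  obtain ⟨δ, hδ⟩ : ∃ δ, δ = min ((t0 : ℝ) + 1 - u) (v - (t0 + 1)) := ⟨_, rfl⟩
  have hδ0 : 0 < δ := by rw [hδ]; exact lt_min (by linarith) (by linarith)
  have d1 : δ ≤ (t0 : ℝ) + 1 - u := by rw [hδ]; exact min_le_left _ _
  have d2 : δ ≤ v - (t0 + 1) := by rw [hδ]; exact min_le_right _ _
  refine ⟨δ, hδ0, ?_⟩
  filter_upwards [(hG a5).2] with ρ hρ s t hst hs ht
  have hst' : (s : ℝ) ≤ t := hst
  have hs' := abs_le.1 hs
  have ht' := abs_le.1 ht
  have e1 : u ≤ (s : ℝ) + 1 := by linarith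
  have e2 : (t : ℝ) + 1 ≤ v := by linarith
  have e3 : q.2 * ((lam (t + 1) : ℝ) - lam (s + 1)) = p.2 * (t - s) :=
    time_arc hD e1 (by linarith) (by linarith) e2
  have e4 : lam ((s : ℝ) + 1) ≤ lam ((t : ℝ) + 1) := by
    change (lam ((s : ℝ) + 1) : ℝ) ≤ lam ((t : ℝ) + 1)
    have h6 := hD.hl ((s : ℝ) + 1) (t + 1) ⟨e1, by linarith⟩ ⟨by linarith, e2⟩
    have : 0 ≤ r * ((t : ℝ) + 1 - (s + 1)) := mul_nonneg h1.le (by linarith)
    linarith
  have h6 := hρ _ _ e4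
  unfold Two at h6 ⊢
  rw [V_arc hc hD hst e1 e2 ρ, ← e3]
  exact h6

/-! ### Compact sets of times -/

theorem unif {f : C(unitInterval, ℂ)} {O : Set unitInterval} {c C T : ℝ}
    (hl : LocTwo f O c C T) {K : Set unitInterval} (hK : IsCompact K) (hKO : K ⊆ O) :
    ∃ δ : ℝ, 0 < δ ∧ ∀ᶠ ρ : ℝ in 𝓝[>] 0, ∀ s t : unitInterval, s ≤ t →
      (∃ x ∈ K, |(s : ℝ) - x| ≤ δ ∧ |(t : ℝ) - x| ≤ δ) → Two f c C T ρ s t := by
  refine hK.induction_on (p := fun K => ∃ δ : ℝ, 0 < δ ∧ ∀ᶠ ρ : ℝ in 𝓝[>] 0,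
    ∀ s t : unitInterval, s ≤ t →
      (∃ x ∈ K, |(s : ℝ) - x| ≤ δ ∧ |(t : ℝ) - x| ≤ δ) → Two f c C T ρ s t) ?_ ?_ ?_ ?_
  · refine ⟨1, one_pos, Eventually.of_forall fun ρ s t _ h => ?_⟩
    obtain ⟨x, hx, -⟩ := h
    exact absurd hx (Set.notMem_empty x)
  · rintro A B hAB ⟨δ, hδ, h⟩
    refine ⟨δ, hδ, ?_⟩
    filter_upwards [h] with ρ hρ s t hst hx
    obtain ⟨x, hx, h2⟩ := hx
    exact hρ s t hst ⟨x, hAB hx, h2⟩
  · rintro A B ⟨δ, hδ, h⟩ ⟨δ', hδ', h'⟩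
    refine ⟨min δ δ', lt_min hδ hδ', ?_⟩
    filter_upwards [h, h'] with ρ hρ hρ' s t hst hx
    obtain ⟨x, hx | hx, h2, h3⟩ := hx
    · exact hρ s t hst ⟨x, hx, h2.trans (min_le_left _ _), h3.trans (min_le_left _ _)⟩
    · exact hρ' s t hst ⟨x, hx, h2.trans (min_le_right _ _), h3.trans (min_le_right _ _)⟩
  · intro x hx
    obtain ⟨δ, hδ, h⟩ := hl x (hKO hx)
    refine ⟨Metric.ball x (δ / 2), mem_nhdsWithin_of_mem_nhds (Metric.ball_mem_nhds _ (by linarith)),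
      δ / 2, by linarith, ?_⟩
    filter_upwards [h] with ρ hρ s t hst hy
    obtain ⟨y, hy, h2, h3⟩ := hy
    have hy' : |(y : ℝ) - x| < δ / 2 := hy
    refine hρ s t hst ?_ ?_
    · calc |(s : ℝ) - x| = |((s : ℝ) - y) + (y - x)| := by ring_nf
        _ ≤ |(s : ℝ) - y| + |(y : ℝ) - x| := abs_add_le _ _
        _ ≤ δ := by linarith
    · calc |(t : ℝ) - x| = |((t : ℝ) - y) + (y - x)| := by ring_nf
        _ ≤ |(t : ℝ) - y| + |(y : ℝ) - x| := abs_add_le _ _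
        _ ≤ δ := by linarith

/-- nice interval -/
def Nice (f : C(unitInterval, ℂ)) (c C T : ℝ) (x y : unitInterval) : Prop :=
  ∀ᶠ ρ : ℝ in 𝓝[>] 0, ∀ s t : unitInterval, x ≤ s → s ≤ t → t ≤ y → Two f c C T ρ s t

/-- A part of a nice interval which avoids a compact null set. -/
theorem avoid {f : C(unitInterval, ℂ)} {c C T : ℝ} (hc : 0 < c) (hC : 0 < C) (hT : 0 < T)
    {x y : unitInterval} (hxy : x < y) (hN : Nice f c C T x y) {E : Set unitInterval}
    (hE : IsCompact E) (hE0 : volume E = 0) :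
    ∃ A : Set unitInterval, IsCompact A ∧ A ⊆ Set.Icc x y ∧ Disjoint A E ∧
      ∀ᶠ ρ : ℝ in 𝓝[>] 0, c / 2 * (T * ((y : ℝ) - x)) * ρ ^ (1/4 : ℝ) ≤ V f ρ A := by
  classical
  have hxy' : (x : ℝ) < y := hxy
  obtain ⟨M, hM, B, hB1, hB2, hB3⟩ := gr_few hxy hE hE0
    (ε := c / (2 * C) * ((y : ℝ) - x)) (by
      have : 0 < (y : ℝ) - x := by linarith
      positivity)
  have hM' : (0 : ℝ) < M := by exact_mod_cast hM
  refine ⟨⋃ k ∈ Finset.range M \ B, Set.Icc (gr x y M k) (gr x y M (k + 1)),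
    (Finset.range M \ B).isCompact_biUnion (fun k _ => isCompact_Icc), ?_, ?_, ?_⟩
  · refine Set.iUnion₂_subset fun k hk => ?_
    rw [Finset.mem_sdiff, Finset.mem_range] at hk
    exact Set.Icc_subset_Icc (gr_mem hxy.le hk.1.le hM).1 (gr_mem hxy.le hk.1 hM).2
  · rw [Set.disjoint_iUnion₂_left]
    intro k hk
    rw [Finset.mem_sdiff] at hk
    exact hB2 k hk.1 hk.2
  · have hmesh : 0 < T * (((y : ℝ) - x) / M) := by
      have : 0 < (y : ℝ) - x := by linarith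
      positivity
    filter_upwards [hN, thr (C := C) hmesh, self_mem_nhdsWithin] with ρ h1 h2 h3
    have hρ : 0 < ρ := h3
    have h4 : 0 < ρ ^ (1/4 : ℝ) := Real.rpow_pos_of_pos hρ _
    have hbig : C * ρ ^ (7/4 : ℝ) * Real.log (1 / ρ) ≤ T * ((y : ℝ) - x) := by
      refine h2.le.trans (mul_le_mul_of_nonneg_left ?_ hT.le)
      refine div_le_self (by linarith) ?_
      exact_mod_cast hM
    have h5 := (h1 x y le_rfl hxy.le le_rfl hbig).1
    have h6 : Set.Icc x y ⊆ (⋃ k ∈ Finset.range M \ B, Set.Icc (gr x y M k) (gr x y M (k + 1))) ∪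
        ⋃ k ∈ B, Set.Icc (gr x y M k) (gr x y M (k + 1)) := by
      intro w hw
      have := gr_cover hxy.le hM hw
      simp only [Set.mem_iUnion] at this
      obtain ⟨k, hk, hw'⟩ := this
      by_cases hkB : k ∈ B
      · right
        exact Set.mem_iUnion₂.2 ⟨k, hkB, hw'⟩
      · left
        exact Set.mem_iUnion₂.2 ⟨k, Finset.mem_sdiff.2 ⟨hk, hkB⟩, hw'⟩
    have h7 := (V_mono f ρ h6).trans (V_union f ρ _ _)
    have h8 : V f ρ (⋃ k ∈ B, Set.Icc (gr x y M k) (gr x y M (k + 1))) ≤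
        c / 2 * (T * ((y : ℝ) - x)) * ρ ^ (1/4 : ℝ) := by
      refine (V_biUnion f ρ _ _).trans ?_
      have h9 : ∀ k ∈ B, V f ρ (Set.Icc (gr x y M k) (gr x y M (k + 1))) ≤
          C * (T * (((y : ℝ) - x) / M)) * ρ ^ (1/4 : ℝ) := by
        intro k hk
        have hk' : k < M := Finset.mem_range.1 (hB1 hk)
        have e := gr_step hxy.le hk'
        have := (h1 _ _ (gr_mem hxy.le hk'.le hM).1 (gr_mono hxy.le (Nat.le_succ k) hk' hM)
          (gr_mem hxy.le hk' hM).2 (by rw [e]; exact h2.le)).2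
        rwa [e] at this
      refine (Finset.sum_le_sum h9).trans ?_
      rw [Finset.sum_const, nsmul_eq_mul]
      calc (B.card : ℝ) * (C * (T * (((y : ℝ) - x) / M)) * ρ ^ (1/4 : ℝ))
          = ((B.card : ℝ) * (((y : ℝ) - x) / M)) * (C * T * ρ ^ (1/4 : ℝ)) := by ring
        _ ≤ (c / (2 * C) * ((y : ℝ) - x)) * (C * T * ρ ^ (1/4 : ℝ)) :=
          mul_le_mul_of_nonneg_right hB3 (by positivity)
        _ = c / 2 * (T * ((y : ℝ) - x)) * ρ ^ (1/4 : ℝ) := by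
          field_simp
    linarith

/-- Lower bound for a finite union of nice intervals. -/
theorem union_low {f : C(unitInterval, ℂ)} {c C T : ℝ} (hc : 0 < c) (hC : 0 < C) (hT : 0 < T)
    (hD : volume (Db f) = 0) {ι : Type*} (I : Finset ι) (x y : ι → unitInterval)
    (hxy : ∀ i ∈ I, x i < y i) (hN : ∀ i ∈ I, Nice f c C T (x i) (y i))
    (hdis : ∀ i ∈ I, ∀ j ∈ I, i ≠ j → y i ≤ x j ∨ y j ≤ x i) :
    ∀ᶠ ρ : ℝ in 𝓝[>] 0, c / 2 * (T * ∑ i ∈ I, ((y i : ℝ) - x i)) * ρ ^ (1/4 : ℝ) ≤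
      V f ρ (⋃ i ∈ I, Set.Icc (x i) (y i)) := by
  classical
  obtain ⟨E, hE⟩ : ∃ E : ι → Set unitInterval, ∀ i, E i =
    Set.Icc (x i) (y i) ∩ f ⁻¹' (f '' ⋃ j ∈ I.erase i, Set.Icc (x j) (y j)) := ⟨_, fun _ => rfl⟩
  have hEc : ∀ i, IsCompact (E i) := by
    intro i
    rw [hE]
    refine isCompact_Icc.inter_right ?_
    refine IsClosed.preimage f.continuous ?_
    refine (IsCompact.image ?_ f.continuous).isClosed
    exact (I.erase i).isCompact_biUnion (fun j _ => isCompact_Icc)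
  have hE0 : ∀ i ∈ I, volume (E i) = 0 := by
    intro i hi
    have hsub : E i ⊆ Db f ∪ ({x i} ∪ {y i}) := by
      rw [hE]
      rintro w ⟨hw1, w', hw2, hw3⟩
      simp only [Set.mem_iUnion] at hw2
      obtain ⟨j, hj, hw4⟩ := hw2
      rw [Finset.mem_erase] at hj
      by_cases hww : w' = w
      · right
        subst hww
        rcases hdis i hi j hj.2 (Ne.symm hj.1) with h | h
        · right
          exact le_antisymm hw1.2 (h.trans hw4.1)
        · left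
          exact le_antisymm (hw4.2.trans h) hw1.1
      · left
        exact ⟨w', hww, hw3⟩
    refine measure_mono_null hsub ?_
    rw [measure_union_null_iff, measure_union_null_iff]
    exact ⟨hD, measure_singleton _, measure_singleton _⟩
  have hav : ∀ i : ι, ∃ A : Set unitInterval, i ∈ I → (IsCompact A ∧ A ⊆ Set.Icc (x i) (y i) ∧
      Disjoint A (E i) ∧ ∀ᶠ ρ : ℝ in 𝓝[>] 0,
        c / 2 * (T * ((y i : ℝ) - x i)) * ρ ^ (1/4 : ℝ) ≤ V f ρ A) := by
    intro i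
    by_cases hi : i ∈ I
    · obtain ⟨A, h1⟩ := avoid hc hC hT (hxy i hi) (hN i hi) (hEc i) (hE0 i hi)
      exact ⟨A, fun _ => h1⟩
    · exact ⟨∅, fun h => absurd h hi⟩
  choose A hA using hav
  -- the images are disjoint
  have hdj : ∀ i ∈ I, ∀ j ∈ I, i ≠ j → ∀ᶠ ρ : ℝ in 𝓝[>] 0,
      Disjoint (Metric.thickening ρ (f '' A i)) (Metric.thickening ρ (f '' A j)) := by
    intro i hi j hj hij
    have h1 : Disjoint (f '' A i) (f '' A j) := by
      rw [Set.disjoint_left]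
      rintro _ ⟨w, hw, rfl⟩ ⟨w', hw', hww⟩
      refine (Set.disjoint_left.1 (hA i hi).2.2.1) hw ?_
      rw [hE]
      refine ⟨(hA i hi).2.1 hw, w', ?_, hww⟩
      exact Set.mem_iUnion₂.2 ⟨j, Finset.mem_erase.2 ⟨Ne.symm hij, hj⟩, (hA j hj).2.1 hw'⟩
    obtain ⟨δ, hδ, h2⟩ := h1.exists_thickenings ((hA i hi).1.image f.continuous)
      ((hA j hj).1.image f.continuous).isClosed
    filter_upwards [Ioo_mem_nhdsGT hδ] with ρ hρ
    exact h2.mono (Metric.thickening_mono hρ.2.le _) (Metric.thickening_mono hρ.2.le _)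
  have hall : ∀ᶠ ρ : ℝ in 𝓝[>] 0, ∀ i ∈ I, ∀ j ∈ I, i ≠ j →
      Disjoint (Metric.thickening ρ (f '' A i)) (Metric.thickening ρ (f '' A j)) := by
    rw [Filter.eventually_all_finset]
    intro i hi
    rw [Filter.eventually_all_finset]
    intro j hj
    by_cases hij : i = j
    · exact Eventually.of_forall fun ρ h => absurd hij h
    · filter_upwards [hdj i hi j hj hij] with ρ hρ _ using hρ
  have hlow : ∀ᶠ ρ : ℝ in 𝓝[>] 0, ∀ i ∈ I,
      c / 2 * (T * ((y i : ℝ) - x i)) * ρ ^ (1/4 : ℝ) ≤ V f ρ (A i) := by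
    rw [Filter.eventually_all_finset]
    exact fun i hi => (hA i hi).2.2.2
  filter_upwards [hall, hlow] with ρ h1 h2
  calc c / 2 * (T * ∑ i ∈ I, ((y i : ℝ) - x i)) * ρ ^ (1/4 : ℝ)
      = ∑ i ∈ I, c / 2 * (T * ((y i : ℝ) - x i)) * ρ ^ (1/4 : ℝ) := by
        rw [Finset.mul_sum, Finset.mul_sum, Finset.sum_mul]
    _ ≤ ∑ i ∈ I, V f ρ (A i) := Finset.sum_le_sum h2
    _ = V f ρ (⋃ i ∈ I, A i) := V_disj f ρ I A h1
    _ ≤ V f ρ (⋃ i ∈ I, Set.Icc (x i) (y i)) := by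
        refine V_mono f ρ ?_
        exact Set.iUnion₂_mono fun i hi => (hA i hi).2.1

/-- Lower bound for one arc. -/
theorem one_low {f : C(unitInterval, ℂ)} {O : Set unitInterval} {c C T : ℝ} (hc : 0 < c)
    (hC : 0 < C) (hT : 0 < T) (hD : volume (Db f) = 0) (hO : IsOpen O) (hO0 : volume Oᶜ = 0)
    (hl : LocTwo f O c C T) {s t : unitInterval} (hst : s < t) :
    ∀ᶠ ρ : ℝ in 𝓝[>] 0, c / 4 * (T * ((t : ℝ) - s)) * ρ ^ (1/4 : ℝ) ≤ V f ρ (Set.Icc s t) := by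
  classical
  have hst' : (s : ℝ) < t := hst
  have hU : IsOpen (O ∩ Set.Ioo s t) := hO.inter isOpen_Ioo
  have hUv : volume (O ∩ Set.Ioo s t) = ENNReal.ofReal ((t : ℝ) - s) := by
    rw [← unitInterval.volume_Ioo]
    refine le_antisymm (measure_mono Set.inter_subset_right) ?_
    have h1 : Set.Ioo s t ⊆ (O ∩ Set.Ioo s t) ∪ Oᶜ := by
      intro w hw
      by_cases h : w ∈ O
      · exact Or.inl ⟨h, hw⟩
      · exact Or.inr h
    refine (measure_mono h1).trans ((measure_union_le _ _).trans ?_)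
    rw [hO0, add_zero]
  obtain ⟨K, hKU, hK, hKv⟩ := hU.exists_lt_isCompact (μ := volume)
    (r := ENNReal.ofReal (((t : ℝ) - s) / 2)) (by
      rw [hUv]
      exact (ENNReal.ofReal_lt_ofReal_iff (by linarith)).2 (by linarith))
  obtain ⟨δ, hδ, hun⟩ := unif hl hK (hKU.trans Set.inter_subset_left)
  obtain ⟨M, hM⟩ := exists_nat_gt (((t : ℝ) - s) / δ)
  have hM0 : (0 : ℝ) < M := lt_of_le_of_lt (div_nonneg (by linarith) hδ.le) hM
  have hMpos : 0 < M := by exact_mod_cast hM0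
  have hmesh : ((t : ℝ) - s) / M < δ := by
    rw [div_lt_iff₀ hM0]
    rw [div_lt_iff₀ hδ] at hM
    linarith
  obtain ⟨I, hI⟩ : ∃ I : Finset ℕ, I = (Finset.range M).filter (fun k =>
    (Set.Icc (gr s t M k) (gr s t M (k + 1)) ∩ K).Nonempty) := ⟨_, rfl⟩
  have hIr : ∀ k ∈ I, k < M := by
    intro k hk
    rw [hI, Finset.mem_filter, Finset.mem_range] at hk
    exact hk.1
  have hcov : K ⊆ ⋃ k ∈ I, Set.Icc (gr s t M k) (gr s t M (k + 1)) := by
    intro w hw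
    have h1 := gr_cover hst.le hMpos (Set.Ioo_subset_Icc_self (hKU hw).2)
    simp only [Set.mem_iUnion] at h1
    obtain ⟨k, hk, hw'⟩ := h1
    refine Set.mem_iUnion₂.2 ⟨k, ?_, hw'⟩
    rw [hI, Finset.mem_filter]
    exact ⟨hk, w, hw', hw⟩
  have hsum : ((t : ℝ) - s) / 2 ≤ ∑ k ∈ I, ((gr s t M (k + 1) : ℝ) - gr s t M k) := by
    have h1 := (measure_mono (μ := volume) hcov).trans (measure_biUnion_finset_le _ _)
    have h2 : ∑ k ∈ I, volume (Set.Icc (gr s t M k) (gr s t M (k + 1))) =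
        ENNReal.ofReal (∑ k ∈ I, ((gr s t M (k + 1) : ℝ) - gr s t M k)) := by
      rw [ENNReal.ofReal_sum_of_nonneg]
      · exact Finset.sum_congr rfl fun k _ => unitInterval.volume_Icc _ _
      · intro k hk
        rw [gr_step hst.le (hIr k hk)]
        exact div_nonneg (by linarith) hM0.le
    rw [h2] at h1
    have h3 := hKv.trans_le h1
    by_contra hcon
    push Not at hcon
    exact absurd (ENNReal.ofReal_le_ofReal hcon.le) (not_le.2 h3)
  have hlow := union_low (ι := ℕ) hc hC hT hD I (fun k => gr s t M k) (fun k => gr s t M (k + 1))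
    (fun k hk => by
      have h1 := gr_step hst.le (hIr k hk)
      have h2 : 0 < ((t : ℝ) - s) / M := div_pos (by linarith) hM0
      change (gr s t M k : ℝ) < gr s t M (k + 1)
      linarith)
    (fun k hk => by
      have hk' := hk
      rw [hI, Finset.mem_filter] at hk'
      obtain ⟨e, he1, he2⟩ := hk'.2
      unfold Nice
      filter_upwards [hun] with ρ hρ s' t' h1 h2 h3
      have g1 := gr_step hst.le (hIr k hk)
      have g2 : (gr s t M k : ℝ) ≤ e := he1.1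
      have g3 : (e : ℝ) ≤ gr s t M (k + 1) := he1.2
      have g4 : (gr s t M k : ℝ) ≤ s' := h1
      have g5 : (s' : ℝ) ≤ t' := h2
      have g6 : (t' : ℝ) ≤ gr s t M (k + 1) := h3
      refine hρ s' t' h2 ⟨e, he2, ?_, ?_⟩
      · rw [abs_le]
        constructor <;> linarith
      · rw [abs_le]
        constructor <;> linarith)
    (fun j hj k hk hjk => by
      rcases lt_or_gt_of_ne hjk with h1 | h1
      · exact Or.inl (gr_mono hst.le (by omega) (hIr k hk).le hMpos)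
      · exact Or.inr (gr_mono hst.le (by omega) (hIr j hj).le hMpos))
  filter_upwards [hlow, self_mem_nhdsWithin] with ρ h1 h2
  have hρ : 0 < ρ := h2
  have h4 : 0 < ρ ^ (1/4 : ℝ) := Real.rpow_pos_of_pos hρ _
  have h5 : (⋃ k ∈ I, Set.Icc (gr s t M k) (gr s t M (k + 1))) ⊆ Set.Icc s t := by
    refine Set.iUnion₂_subset fun k hk => ?_
    exact Set.Icc_subset_Icc (gr_mem hst.le (hIr k hk).le hMpos).1
      (gr_mem hst.le (hIr k hk) hMpos).2
  refine le_trans ?_ (h1.trans (V_mono f ρ h5))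
  have h6 : c / 4 * (T * ((t : ℝ) - s)) = c / 2 * (T * (((t : ℝ) - s) / 2)) := by ring
  rw [h6]
  refine mul_le_mul_of_nonneg_right (mul_le_mul_of_nonneg_left
    (mul_le_mul_of_nonneg_left hsum hT.le) (by positivity)) h4.le

/-- Lower bound for all long arcs. -/
theorem long_low {f : C(unitInterval, ℂ)} {O : Set unitInterval} {c C T : ℝ} (hc : 0 < c)
    (hC : 0 < C) (hT : 0 < T) (hD : volume (Db f) = 0) (hO : IsOpen O) (hO0 : volume Oᶜ = 0)
    (hl : LocTwo f O c C T) {ε : ℝ} (hε : 0 < ε) :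
    ∀ᶠ ρ : ℝ in 𝓝[>] 0, ∀ s t : unitInterval, ε ≤ (t : ℝ) - s →
      c / 8 * (T * ((t : ℝ) - s)) * ρ ^ (1/4 : ℝ) ≤ V f ρ (Set.Icc s t) := by
  obtain ⟨M, hM⟩ := exists_nat_gt (4 / ε)
  have hM0 : (0 : ℝ) < M := lt_of_le_of_lt (div_nonneg (by norm_num) hε.le) hM
  have hMpos : 0 < M := by exact_mod_cast hM0
  have hM4 : 4 / (M : ℝ) < ε := by
    rw [div_lt_iff₀ hM0]
    rw [div_lt_iff₀ hε] at hM
    linarith
  have hg : ∀ k ≤ M, (gr 0 1 M k : ℝ) = k / M := by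
    intro k hk
    rw [gr_val zero_le_one hMpos hk]
    simp only [Set.Icc.coe_zero, Set.Icc.coe_one]
    ring
  have hall : ∀ᶠ ρ : ℝ in 𝓝[>] 0, ∀ j ∈ Finset.range (M + 1), ∀ k ∈ Finset.range (M + 1), j < k →
      c / 4 * (T * ((gr 0 1 M k : ℝ) - gr 0 1 M j)) * ρ ^ (1/4 : ℝ) ≤
        V f ρ (Set.Icc (gr 0 1 M j) (gr 0 1 M k)) := by
    rw [Filter.eventually_all_finset]
    intro j hj
    rw [Filter.eventually_all_finset]
    intro k hk
    rw [Finset.mem_range] at hj hk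
    by_cases hjk : j < k
    · have h1 : gr 0 1 M j < gr 0 1 M k := by
        change (gr 0 1 M j : ℝ) < gr 0 1 M k
        rw [hg j (by omega), hg k (by omega)]
        have : (j : ℝ) < k := by exact_mod_cast hjk
        gcongr
      filter_upwards [one_low hc hC hT hD hO hO0 hl h1] with ρ hρ _ using hρ
    · exact Eventually.of_forall fun ρ h => absurd h hjk
  filter_upwards [hall, self_mem_nhdsWithin] with ρ h1 h2 s t hst
  have hρ : 0 < ρ := h2
  have h4 : 0 < ρ ^ (1/4 : ℝ) := Real.rpow_pos_of_pos hρ _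
  have hs0 := s.2.1
  have ht1 := t.2.2
  have ht0 := t.2.1
  obtain ⟨j, hj⟩ : ∃ j, j = ⌈(s : ℝ) * M⌉₊ := ⟨_, rfl⟩
  obtain ⟨k, hk⟩ : ∃ k, k = ⌊(t : ℝ) * M⌋₊ := ⟨_, rfl⟩
  have j1 : (s : ℝ) * M ≤ j := by rw [hj]; exact Nat.le_ceil _
  have j2 : (j : ℝ) < s * M + 1 := by
    rw [hj]
    exact Nat.ceil_lt_add_one (mul_nonneg hs0 hM0.le)
  have k1 : (k : ℝ) ≤ t * M := by
    rw [hk]
    exact Nat.floor_le (mul_nonneg ht0 hM0.le)
  have k2 : (t : ℝ) * M < k + 1 := by rw [hk]; exact Nat.lt_floor_add_one _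
  have hεM : 4 < ε * M := by
    rw [div_lt_iff₀ hM0] at hM4
    exact hM4
  have hd : ε * M ≤ ((t : ℝ) - s) * M := mul_le_mul_of_nonneg_right hst hM0.le
  have hd' : ((t : ℝ) - s) * M = t * M - s * M := by ring
  have hjk : (j : ℝ) < k := by linarith
  have hjk' : j < k := by exact_mod_cast hjk
  have hkM : (k : ℝ) ≤ M := k1.trans (by nlinarith)
  have hkM' : k ≤ M := by exact_mod_cast hkM
  have h5 := h1 j (Finset.mem_range.2 (by omega)) k (Finset.mem_range.2 (by omega)) hjk'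
  rw [hg j (by omega), hg k (by omega)] at h5
  have h6 : Set.Icc (gr 0 1 M j) (gr 0 1 M k) ⊆ Set.Icc s t := by
    refine Set.Icc_subset_Icc ?_ ?_
    · change (s : ℝ) ≤ gr 0 1 M j
      rw [hg j (by omega), le_div_iff₀ hM0]
      exact j1
    · change (gr 0 1 M k : ℝ) ≤ t
      rw [hg k (by omega), div_le_iff₀ hM0]
      exact k1
  refine le_trans ?_ (h5.trans (V_mono f ρ h6))
  have h7 : ((t : ℝ) - s) / 2 ≤ k / M - j / M := by
    rw [← sub_div, le_div_iff₀ hM0]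
    nlinarith
  have h8 : c / 8 * (T * ((t : ℝ) - s)) = c / 4 * (T * (((t : ℝ) - s) / 2)) := by ring
  rw [h8]
  exact mul_le_mul_of_nonneg_right (mul_le_mul_of_nonneg_left
    (mul_le_mul_of_nonneg_left h7 hT.le) (by positivity)) h4.le

/-- All arcs of a compact interval. -/
theorem all_arcs {f : C(unitInterval, ℂ)} {O : Set unitInterval} {c C T : ℝ} (hc : 0 < c)
    (hC : 0 < C) (hT : 0 < T) (hD : volume (Db f) = 0) (hO : IsOpen O) (hO0 : volume Oᶜ = 0)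
    (hl : LocTwo f O c C T) {a b : unitInterval} (hab : Set.Icc a b ⊆ O) :
    ∀ᶠ ρ : ℝ in 𝓝[>] 0, ∀ s t : unitInterval, a ≤ s → s ≤ t → t ≤ b →
      Two f (c / 8) C T ρ s t := by
  obtain ⟨δ, hδ, hun⟩ := unif hl isCompact_Icc hab
  have hTδ : 0 < T * (δ / 2) := by positivity
  filter_upwards [hun, thr (C := C) hTδ, long_low hc hC hT hD hO hO0 hl (ε := δ) hδ,
    self_mem_nhdsWithin] with ρ h1 h2 h3 h0 s t has hst htb
  have hρ : 0 < ρ := h0
  have h4 : 0 < ρ ^ (1/4 : ℝ) := Real.rpow_pos_of_pos hρ _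
  have hst' : (s : ℝ) ≤ t := hst
  have hshort : ∀ s t : unitInterval, a ≤ s → s ≤ t → t ≤ b → (t : ℝ) - s ≤ δ →
      Two f c C T ρ s t := by
    intro s t has hst htb hlt
    have hst' : (s : ℝ) ≤ t := hst
    refine h1 s t hst ⟨s, ⟨has, hst.trans htb⟩, ?_, ?_⟩
    · rw [sub_self, abs_zero]
      exact hδ.le
    · rw [abs_of_nonneg (by linarith)]
      exact hlt
  -- upper bound
  have hup : ∀ n : ℕ, ∀ s t : unitInterval, a ≤ s → s ≤ t → t ≤ b →
      (t : ℝ) - s ≤ δ + n * (δ / 2) → C * ρ ^ (7/4 : ℝ) * Real.log (1 / ρ) ≤ T * ((t : ℝ) - s) →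
      V f ρ (Set.Icc s t) ≤ C * (T * ((t : ℝ) - s)) * ρ ^ (1/4 : ℝ) := by
    intro n
    induction n with
    | zero =>
      intro s t has hst htb hlt hth
      refine (hshort s t has hst htb ?_ hth).2
      simpa using hlt
    | succ n ih =>
      intro s t has hst htb hlt hth
      rcases le_or_gt ((t : ℝ) - s) δ with h | h
      · exact (hshort s t has hst htb h hth).2
      · have hm : (s : ℝ) + δ / 2 ∈ unitInterval :=
          ⟨by linarith [s.2.1], by linarith [t.2.2]⟩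
        obtain ⟨m, hm'⟩ : ∃ m : unitInterval, (m : ℝ) = s + δ / 2 := ⟨⟨_, hm⟩, rfl⟩
        have hsm : s ≤ m := by
          change (s : ℝ) ≤ m
          linarith
        have hmt : m ≤ t := by
          change (m : ℝ) ≤ t
          linarith
        have e1 : (m : ℝ) - s = δ / 2 := by linarith
        have g1 := (hshort s m has hsm (hmt.trans htb) (by linarith) (by
          rw [e1]
          exact h2.le)).2
        have g2 := ih m t (has.trans hsm) hmt htb (by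
          push_cast at hlt
          linarith) (by
          refine h2.le.trans (mul_le_mul_of_nonneg_left ?_ hT.le)
          linarith)
        have g3 : Set.Icc s t ⊆ Set.Icc s m ∪ Set.Icc m t := by
          intro w hw
          rcases le_total w m with h | h
          · exact Or.inl ⟨hw.1, h⟩
          · exact Or.inr ⟨h, hw.2⟩
        refine ((V_mono f ρ g3).trans (V_union f ρ _ _)).trans ((add_le_add g1 g2).trans ?_)
        have : C * (T * ((m : ℝ) - s)) * ρ ^ (1/4 : ℝ) + C * (T * ((t : ℝ) - m)) * ρ ^ (1/4 : ℝ) =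
            C * (T * ((t : ℝ) - s)) * ρ ^ (1/4 : ℝ) := by ring
        rw [this]
  intro hth
  constructor
  · rcases le_or_gt ((t : ℝ) - s) δ with h | h
    · refine le_trans ?_ (hshort s t has hst htb h hth).1
      have : 0 ≤ T * ((t : ℝ) - s) := mul_nonneg hT.le (by linarith)
      refine mul_le_mul_of_nonneg_right (mul_le_mul_of_nonneg_right ?_ this) h4.le
      linarith
    · exact h3 s t h.le
  · obtain ⟨n, hn⟩ := exists_nat_gt (2 / δ)
    refine hup n s t has hst htb ?_ hth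
    rw [div_lt_iff₀ hδ] at hn
    have := s.2.1
    have := t.2.2
    linarith

end Pool.Agent.Q166.PT
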