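import Pool.Agent.Q166.PT.Mink

/-!
Occupation times of discs along a curve which is locally a translate of arcs of nice curves.
-/

set_option autoImplicit false

open MeasureTheory Filter Topology
open scoped ENNReal

namespace Pool.Agent.Q166.PT

open Pool.Agent.Y977.LGF

/-- The maximal occupation time of discs of radius `r` is of the exact order `g r` for `q`. -/
def OccG (g : ℝ → ℝ) : Set CT :=
  {q | 0 < q.2 ∧ ∃ c C : ℝ, 0 < c ∧ 0 < C ∧ ∀ a b : unitInterval, a < b → ∃ r0 : ℝ, 0 < r0 ∧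
    ∀ r : ℝ, 0 < r → r < r0 →
      (∃ z : ℂ, c * g r ≤
        q.2 * (volume {s : unitInterval | (a ≤ s ∧ s ≤ b) ∧ dist (q.1 s) z ≤ r}).toReal) ∧
      (∀ z : ℂ, q.2 * (volume {s : unitInterval | dist (q.1 s) z ≤ r}).toReal ≤ C * g r)}

theorem dist_tr {p q : CT} {z : ℂ} {u v : ℝ} {lam : ℝ → unitInterval} {ρ : ℝ}
    (hc : p.1 0 = p.1 1) (h : ArcD p q z u v lam ρ) {x : unitInterval}
    (h1 : u ≤ (x : ℝ) + 1) (h2 : (x : ℝ) + 1 ≤ v) (y : ℂ) :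
    dist (p.1 x) (z + y) = dist (q.1 (lam (x + 1))) y := by
  rw [← per_add_one hc x, h.hm _ ⟨h1, h2⟩, dist_add_left]

/-- occupation time of an arc, upper bound -/
theorem occ_up {p q : CT} {z : ℂ} {u v : ℝ} {lam : ℝ → unitInterval} {ρ : ℝ}
    (hc : p.1 0 = p.1 1) (h : ArcD p q z u v lam ρ) {r K : ℝ}
    (hK : ∀ w : ℂ, q.2 * (volume {s : unitInterval | dist (q.1 s) w ≤ r}).toReal ≤ K) (w : ℂ) :
    p.2 * (volume {s : unitInterval | (u ≤ (s : ℝ) + 1 ∧ (s : ℝ) + 1 ≤ v) ∧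
      dist (p.1 s) w ≤ r}).toReal ≤ K := by
  have hρ := h.hρ
  have hvol := vol_map hρ (fun x : unitInterval => lam ((x : ℝ) + 1))
    {s : unitInterval | (u ≤ (s : ℝ) + 1 ∧ (s : ℝ) + 1 ≤ v) ∧ dist (p.1 s) w ≤ r}
    (fun s hs t ht => by
      have h3 := h.hl _ _ ⟨hs.1.1, hs.1.2⟩ ⟨ht.1.1, ht.1.2⟩
      rw [h3]
      ring)
  have hsub : (fun x : unitInterval => lam ((x : ℝ) + 1)) ''
      {s : unitInterval | (u ≤ (s : ℝ) + 1 ∧ (s : ℝ) + 1 ≤ v) ∧ dist (p.1 s) w ≤ r} ⊆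
      {y : unitInterval | dist (q.1 y) (w - z) ≤ r} := by
    rintro _ ⟨x, ⟨hx, hx'⟩, rfl⟩
    change dist _ _ ≤ r
    rw [← dist_tr hc h hx.1 hx.2]
    simpa using hx'
  have h4 := measure_mono (μ := volume) hsub
  rw [hvol] at h4
  have h6 := ENNReal.toReal_mono (measure_ne_top _ _) h4
  rw [ENNReal.toReal_mul, ENNReal.toReal_ofReal hρ.le] at h6
  rw [h.hpq, mul_assoc]
  exact (mul_le_mul_of_nonneg_left h6 h.hq.le).trans (hK _)

/-- occupation time of an arc, lower bound -/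
theorem occ_low {p q : CT} {z : ℂ} {u v : ℝ} {lam : ℝ → unitInterval} {ρ : ℝ}
    (hc : p.1 0 = p.1 1) (h : ArcD p q z u v lam ρ) {s t : unitInterval} (hst : s ≤ t)
    (h1 : u ≤ (s : ℝ) + 1) (h2 : (t : ℝ) + 1 ≤ v) (w : ℂ) (r : ℝ) :
    q.2 * (volume {y : unitInterval | (lam (s + 1) ≤ y ∧ y ≤ lam (t + 1)) ∧
      dist (q.1 y) w ≤ r}).toReal ≤
    p.2 * (volume {x : unitInterval | (s ≤ x ∧ x ≤ t) ∧ dist (p.1 x) (z + w) ≤ r}).toReal := by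
  have hρ := h.hρ
  have hin : ∀ x : unitInterval, s ≤ x → x ≤ t → u ≤ (x : ℝ) + 1 ∧ (x : ℝ) + 1 ≤ v := by
    intro x h3 h4
    have h3' : (s : ℝ) ≤ x := h3
    have h4' : (x : ℝ) ≤ t := h4
    constructor <;> linarith
  have hvol := vol_map hρ (fun x : unitInterval => lam ((x : ℝ) + 1))
    {x : unitInterval | (s ≤ x ∧ x ≤ t) ∧ dist (p.1 x) (z + w) ≤ r}
    (fun x hx y hy => by
      have h3 := h.hl _ _ (hin x hx.1.1 hx.1.2) (hin y hy.1.1 hy.1.2)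
      rw [h3]
      ring)
  have hsub : {y : unitInterval | (lam (s + 1) ≤ y ∧ y ≤ lam (t + 1)) ∧ dist (q.1 y) w ≤ r} ⊆
      (fun x : unitInterval => lam ((x : ℝ) + 1)) ''
      {x : unitInterval | (s ≤ x ∧ x ≤ t) ∧ dist (p.1 x) (z + w) ≤ r} := by
    rintro y ⟨⟨hy1, hy2⟩, hy3⟩
    obtain ⟨x, x1, x2, x3⟩ := pull h hst h1 h2 hy1 hy2
    refine ⟨x, ⟨⟨x1, x2⟩, ?_⟩, x3⟩
    rw [dist_tr hc h (hin x x1 x2).1 (hin x x1 x2).2, x3]
    exact hy3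
  have h4 := measure_mono (μ := volume) hsub
  rw [hvol] at h4
  have h6 := ENNReal.toReal_mono (ENNReal.mul_ne_top ENNReal.ofReal_ne_top (measure_ne_top _ _)) h4
  rw [ENNReal.toReal_mul, ENNReal.toReal_ofReal hρ.le] at h6
  rw [h.hpq, mul_assoc]
  exact mul_le_mul_of_nonneg_left h6 h.hq.le

theorem occ_exact {g : ℝ → ℝ} {G : Set CT} {p : CT}
    (hA : S_ARC) (hG : G ⊆ OccG g) (hc : p.1 0 = p.1 1) (hloc : LocG G p) {a b : unitInterval}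
    (hab : a < b) (hin : ∀ t ∈ Set.Icc a b, p.1 t ∈ Pool.Agent.Y977.LGF.sq) :
    ∃ c C r0 : ℝ, 0 < c ∧ 0 < C ∧ 0 < r0 ∧ ∀ r : ℝ, 0 < r → r < r0 →
      (∃ z : ℂ, c * g r ≤
        p.2 * (volume {s : unitInterval | (a ≤ s ∧ s ≤ b) ∧ dist (p.1 s) z ≤ r}).toReal) ∧
      (∀ z : ℂ, p.2 * (volume {s : unitInterval | (a ≤ s ∧ s ≤ b) ∧ dist (p.1 s) z ≤ r}).toReal ≤
        C * g r) := by
  obtain ⟨n, A, η, hη, hcov⟩ := cover hA (fun q hq => (hG hq).1) hc hloc hin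
  have hab' : (a : ℝ) < b := hab
  -- constants
  have hconst : ∀ i, ∃ C r0 : ℝ, 0 < C ∧ 0 < r0 ∧ ∀ r : ℝ, 0 < r → r < r0 →
      ∀ z : ℂ, (A.q i).2 * (volume {s : unitInterval | dist ((A.q i).1 s) z ≤ r}).toReal ≤
        C * g r := by
    intro i
    obtain ⟨-, c, C, hc, hC, h1⟩ := hG (A.hq i)
    obtain ⟨r0, hr0, h2⟩ := h1 0 1 zero_lt_one
    exact ⟨C, r0, hC, hr0, fun r h3 h4 => (h2 r h3 h4).2⟩
  choose C h0 hC hh0 hup using hconst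
  have hev : ∀ᶠ h : ℝ in 𝓝[>] 0, ∀ i, h < h0 i := by
    rw [eventually_all]
    intro i
    filter_upwards [Ioo_mem_nhdsGT (hh0 i)] with h hh using hh.2
  -- the lower bound
  obtain ⟨i0, hi1, hi2⟩ := hcov a ⟨le_rfl, hab.le⟩
  have hp := (A.hD i0).hp
  have hmem : min (b : ℝ) (a + η) ∈ unitInterval :=
    ⟨le_min b.2.1 (by linarith [a.2.1]), (min_le_left _ _).trans b.2.2⟩
  obtain ⟨b', hb'⟩ : ∃ b' : unitInterval, (b' : ℝ) = min (b : ℝ) (a + η) := ⟨⟨_, hmem⟩, rfl⟩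
  have hb1 : (a : ℝ) < b' := by rw [hb']; exact lt_min hab' (by linarith)
  have hb2 : (b' : ℝ) ≤ b := by rw [hb']; exact min_le_left _ _
  have hb3 : (b' : ℝ) ≤ a + η := by rw [hb']; exact min_le_right _ _
  have hρ0 := (A.hD i0).hρ
  have hlt : A.lam i0 ((a : ℝ) + 1) < A.lam i0 (b' + 1) := by
    have h1 := (A.hD i0).hl ((a : ℝ) + 1) (b' + 1) ⟨by linarith, by linarith⟩
      ⟨by linarith, by linarith⟩
    have h2 : 0 < A.ρ i0 * (b' + 1 - ((a : ℝ) + 1)) := mul_pos hρ0 (by linarith)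
    change (A.lam i0 ((a : ℝ) + 1) : ℝ) < A.lam i0 (b' + 1)
    linarith
  obtain ⟨-, c, C1, hc0, -, hlow⟩ := hG (A.hq i0)
  obtain ⟨h1, hh1, hlow⟩ := hlow _ _ hlt
  have hall : ∀ᶠ h : ℝ in 𝓝[>] 0, (∀ i, h < h0 i) ∧ h < h1 := by
    filter_upwards [hev, Ioo_mem_nhdsGT hh1] with h l1 l3 using ⟨l1, l3.2⟩
  obtain ⟨H, hH, hH2⟩ := mem_nhdsGT_iff_exists_Ioo_subset.1 hall
  have hsum : 0 < ∑ i, C i := by
    refine Finset.sum_pos (fun i _ => hC i) ⟨i0, Finset.mem_univ _⟩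
  refine ⟨c, ∑ i, C i, H, hc0, hsum, hH, fun r hr hrH => ?_⟩
  obtain ⟨k1, k3⟩ := hH2 ⟨hr, hrH⟩
  constructor
  · obtain ⟨z, hz⟩ := (hlow r hr k3).1
    refine ⟨A.z i0 + z, hz.trans ?_⟩
    refine (occ_low hc (A.hD i0) (s := a) (t := b') hb1.le (by linarith) (by linarith) z r).trans ?_
    refine mul_le_mul_of_nonneg_left (ENNReal.toReal_mono (measure_ne_top _ _)
      (measure_mono ?_)) hp.le
    rintro s ⟨⟨s1, s2⟩, s3⟩
    exact ⟨⟨s1, s2.trans hb2⟩, s3⟩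
  · intro z
    have hsub : {s : unitInterval | (a ≤ s ∧ s ≤ b) ∧ dist (p.1 s) z ≤ r} ⊆
        ⋃ i ∈ (Finset.univ : Finset (Fin n)), {s : unitInterval |
          (A.u i ≤ (s : ℝ) + 1 ∧ (s : ℝ) + 1 ≤ A.v i) ∧ dist (p.1 s) z ≤ r} := by
      rintro s ⟨hs1, hs2⟩
      obtain ⟨i, j1, j2⟩ := hcov s hs1
      exact Set.mem_iUnion₂.2 ⟨i, Finset.mem_univ _, ⟨by linarith, by linarith⟩, hs2⟩
    have h4 := (measure_mono (μ := volume) hsub).trans (measure_biUnion_finset_le _ _)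
    have h5 := ENNReal.toReal_mono (ENNReal.sum_ne_top.2 fun i _ => measure_ne_top _ _) h4
    rw [ENNReal.toReal_sum (fun i _ => measure_ne_top _ _)] at h5
    refine (mul_le_mul_of_nonneg_left h5 hp.le).trans ?_
    rw [Finset.mul_sum, Finset.sum_mul]
    exact Finset.sum_le_sum fun i _ => occ_up hc (A.hD i) (hup i r hr (k1 i)) z

end Pool.Agent.Q166.PT
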