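import Pool.Agent.Y995.LG.Top
import Pool.Agent.Y977.LGF.Fast
import Pool.Agent.Y995.LG.Uni
import Pool.Agent.Q166.PT.Thick
import Pool.Agent.Q166.PT.Kap

/-!
Properties of the limits of the naturally parametrised perimeter, and the transfer of local
properties.
-/

set_option autoImplicit false

namespace Pool.Agent.Q166.PT

open H984P H984N MeasureTheory Filter Topology Pool.Agent.Y995.HG Pool.Agent.Y995.LG
open scoped ENNReal

/-- Properties of the limits. -/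
structure Base (p : X) : Prop where
  cl : p.1 0 = p.1 1
  pos : 0 < p.2
  clo : ∀ t, p.1 t ∈ closure Pool.Agent.Y995.LG.sq
  vol : volume {t : unitInterval | p.1 t ∉ Pool.Agent.Y995.LG.sq} = 0
  ex : ∃ t, p.1 t ∈ Pool.Agent.Y995.LG.sq
  dbd : dimH {w : unitInterval | p.1 w ∈ Pool.Agent.Y995.LG.sq ∧ 0 < w ∧ w < 1 ∧ w ∈ Db p.1} ≤ 3 / 7
  db0 : volume (Db p.1) = 0
  uni : ∀ E : Set unitInterval, (∀ t ∈ E, p.1 t ∈ Pool.Agent.Y995.LG.sq) →
    dimH (p.1 '' E) = 7 / 4 * dimH E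

theorem null_of_dim {E : Set unitInterval} (h : dimH E < 1) : volume E = 0 := by
  rw [vol_I]
  rw [← Pool.Agent.Y977.LGF.dim_val] at h
  rw [← hausdorffMeasure_real]
  have h2 : dimH ((fun w : unitInterval => (w : ℝ)) '' E) < ((1 : NNReal) : ℝ≥0∞) := by
    simpa using h
  have h3 := hausdorffMeasure_of_dimH_lt h2
  simpa using h3

/-- Double times of a nowhere constant curve. -/
theorem db_sub {f : C(unitInterval, ℂ)}
    (hne : ∀ (a b : unitInterval) (z : ℂ), a < b → ∃ u, (a < u ∧ u < b) ∧ f u ≠ z)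
    {w : unitInterval} (h0 : 0 < w) (h1 : w < 1) (hw : w ∈ Db f) : f w ∈ dbl f := by
  obtain ⟨t, htw, hft⟩ := hw
  rcases lt_or_gt_of_ne htw with h | h
  · refine ⟨t, w, h, hft, rfl, hne _ _ _ h, ?_⟩
    obtain ⟨u, hu1, hu2⟩ := hne w 1 (f w) h1
    exact ⟨u, Or.inr hu1.1, hu2⟩
  · refine ⟨w, t, h, rfl, hft, hne _ _ _ h, ?_⟩
    obtain ⟨u, hu1, hu2⟩ := hne 0 w (f w) h0
    exact ⟨u, Or.inl hu1.2, hu2⟩

theorem ne_const {c C : ℝ} (hc : 0 < c) {p : X} (h : GI (Measure.mkMetric gm) c C p)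
    (a b : unitInterval) (z : ℂ) (hab : a < b) : ∃ u, (a < u ∧ u < b) ∧ p.1 u ≠ z := by
  by_contra hcon
  push Not at hcon
  have h1 : p.1 '' Set.Ioo a b ⊆ {z} := by
    rintro _ ⟨u, hu, rfl⟩
    exact hcon u hu
  have h2 : Measure.mkMetric gm ({z} : Set ℂ) = 0 := nul _ (by rw [dimH_singleton]; norm_num)
  have h3 := (h.2 (Set.Ioo a b)).1.trans (measure_mono h1)
  rw [h2, unitInterval.volume_Ioo, nonpos_iff_eq_zero, mul_eq_zero] at h3
  have hab' : (a : ℝ) < b := hab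
  rcases h3 with h3 | h3
  · rw [ENNReal.ofReal_eq_zero] at h3
    have := mul_pos hc h.1
    linarith
  · rw [ENNReal.ofReal_eq_zero] at h3
    linarith

theorem base {sel : (n : ℕ) → Finset Edge → ℤ × ℤ} {f : (n : ℕ) → Finset Edge → X}
    (hsel : Sel sel f) {k : ℕ → ℕ} (hk : Tendsto k atTop atTop) {μ : ProbabilityMeasure X}
    (hμ : Tendsto (fun i => H342L.lawOf (k i) (f (k i))) atTop (𝓝 μ)) :
    ∀ᵐ p ∂(μ : Measure X), Base p := by
  obtain ⟨c, C, c', C', θ0, hc, hC, hc', hC', hθ0, hCθ, h⟩ := Pool.Agent.Y995.LG.top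
    (Pool.Agent.Y995.LG.uni Pool.Agent.Y995.LG.arc Pool.Agent.Y995.LG.cov)
    (Pool.Agent.Y977.LG.fast Pool.Agent.Y995.LG.arc Pool.Agent.Y995.LG.cov)
  filter_upwards [h sel f hsel k hk μ hμ] with p hp
  obtain ⟨g1, g2, g3, g4, g5, g6, g7, g8⟩ := hp
  have hsub : {w : unitInterval | p.1 w ∈ Pool.Agent.Y995.LG.sq ∧ 0 < w ∧ w < 1 ∧ w ∈ Db p.1} ⊆
      {t : unitInterval | p.1 t ∈ dbl p.1 ∩ Pool.Agent.Y995.LG.sq} := by
    rintro w ⟨h1, h2, h3, h4⟩
    exact ⟨db_sub (fun a b z hab => ne_const hc g5 a b z hab) h2 h3 h4, h1⟩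
  have hd : dimH {w : unitInterval | p.1 w ∈ Pool.Agent.Y995.LG.sq ∧ 0 < w ∧ w < 1 ∧
      w ∈ Db p.1} ≤ 3 / 7 := (dimH_mono hsub).trans g7.le
  refine ⟨g1, g2, g4, g3, ?_, hd, ?_, g6⟩
  · by_contra hcon
    push Not at hcon
    have h1 : {t : unitInterval | p.1 t ∉ Pool.Agent.Y995.LG.sq} = Set.univ := by
      ext t
      simp [hcon t]
    rw [h1] at g3
    simp at g3
  · have h1 : Db p.1 ⊆ ({(0 : unitInterval)} ∪ {(1 : unitInterval)}) ∪
        ({t : unitInterval | p.1 t ∉ Pool.Agent.Y995.LG.sq} ∪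
        {w : unitInterval | p.1 w ∈ Pool.Agent.Y995.LG.sq ∧ 0 < w ∧ w < 1 ∧ w ∈ Db p.1}) := by
      intro w hw
      by_cases h0 : w = 0
      · exact Or.inl (Or.inl h0)
      by_cases h01 : w = 1
      · exact Or.inl (Or.inr h01)
      have h3 : 0 < w := lt_of_le_of_ne unitInterval.nonneg' (Ne.symm h0)
      have h4 : w < 1 := lt_of_le_of_ne unitInterval.le_one' h01
      by_cases hx : p.1 w ∈ Pool.Agent.Y995.LG.sq
      · exact Or.inr (Or.inr ⟨hx, h3, h4, hw⟩)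
      · exact Or.inr (Or.inl hx)
    refine measure_mono_null h1 ?_
    rw [measure_union_null_iff, measure_union_null_iff, measure_union_null_iff]
    refine ⟨⟨measure_singleton _, measure_singleton _⟩, g3, null_of_dim (hd.trans_lt ?_)⟩
    have e37 : (3 / 7 : ℝ≥0∞) = ENNReal.ofReal (3/7) := by
      rw [ENNReal.ofReal_div_of_pos (by norm_num)]
      norm_num
    rw [e37, ← ENNReal.ofReal_one]
    exact (ENNReal.ofReal_lt_ofReal_iff (by norm_num)).2 (by norm_num)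

/-- Weak limits of the exploration paths exist. -/
theorem sub_lim (R : Rect) : ∀ δ : ℕ → ℝ, (∀ i, 0 < δ i) → Tendsto δ atTop (𝓝 0) →
      ∃ φ : ℕ → ℕ, StrictMono φ ∧ ∃ μ : ProbabilityMeasure X,
        Tendsto (fun i => R.law (δ (φ i))) atTop (𝓝 μ) := by
  obtain ⟨c, C, hc, hC, hgs⟩ := gauge_sets
  exact (hgs R).1

/-- The transfer of local properties. -/
theorem locG {G : Set X} (hGG : ∀ R : Rect, ∀ δ : ℕ → ℝ, (∀ i, 0 < δ i) →
      Tendsto δ atTop (𝓝 0) →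
      ∀ μ : ProbabilityMeasure X, Tendsto (fun i => R.law (δ i)) atTop (𝓝 μ) →
      ∀ᵐ q ∂(μ : Measure X), q ∈ G)
    {sel : (n : ℕ) → Finset Edge → ℤ × ℤ} {f : (n : ℕ) → Finset Edge → X}
    (hsel : Sel sel f) {k : ℕ → ℕ} (hk : Tendsto k atTop atTop) {μ : ProbabilityMeasure X}
    (hμ : Tendsto (fun i => H342L.lawOf (k i) (f (k i))) atTop (𝓝 μ)) :
    ∀ᵐ p ∂(μ : Measure X), LocG G p :=
  transfer seg0 Pool.Agent.Y584.LG.split Pool.Agent.Y495.LG.gena Pool.Agent.Y259.LG.genb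
    law Pool.Agent.Y431.LG.gl diag cur sub_lim hGG hsel hk hμ

/-- The transfer of local properties which depend on the rectangle. -/
theorem locK {G : Loc → Set X} (hGG : ∀ κ : Loc, ∀ δ : ℕ → ℝ, (∀ i, 0 < δ i) →
      Tendsto δ atTop (𝓝 0) →
      ∀ μ : ProbabilityMeasure X, Tendsto (fun i => κ.R.law (δ i)) atTop (𝓝 μ) →
      ∀ᵐ q ∂(μ : Measure X), q ∈ G κ)
    {sel : (n : ℕ) → Finset Edge → ℤ × ℤ} {f : (n : ℕ) → Finset Edge → X}
    (hsel : Sel sel f) {k : ℕ → ℕ} (hk : Tendsto k atTop atTop) {μ : ProbabilityMeasure X}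
    (hμ : Tendsto (fun i => H342L.lawOf (k i) (f (k i))) atTop (𝓝 μ)) :
    ∀ᵐ p ∂(μ : Measure X), LocK G p :=
  transferK seg0 Pool.Agent.Y584.LG.split Pool.Agent.Y495.LG.gena Pool.Agent.Y259.LG.genb
    law Pool.Agent.Y431.LG.gl diag cur sub_lim hGG hsel hk hμ

/-- Existence of the closed lattice path. -/
theorem ex_nat (n : ℕ) (F : Finset Edge) (v : ℤ × ℤ) (hn : 0 < n)
    (hF : F ⊆ H342P.Plain.edges n) (hv : v ∈ H342P.Plain.box n) : ∃ p, IsNat n F v p := by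
  obtain ⟨c, σ, N, h1, h2, h3, h4, h5, -⟩ :=
    (Pool.Agent.Results.MP_6bd702_pr.LimitCurves.result.1 n F v hn hF hv).1
  exact ⟨_, σ, N, h1, h2, h3, h4, h5, rfl⟩

end Pool.Agent.Q166.PT
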