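import Pool.Agent.Y977.LGF.FastCore

/-!
Volumes of sets of times under affine maps; times near a simple point of a curve.
-/

set_option autoImplicit false

open MeasureTheory Filter Topology
open scoped ENNReal Pointwise

namespace Pool.Agent.Q166.PT

open Pool.Agent.Y977.LGF

theorem vol_affine {ρ : ℝ} (hρ : 0 < ρ) (b : ℝ) (S : Set ℝ) :
    volume ((fun x => ρ * x + b) '' S) = ENNReal.ofReal ρ * volume S := by
  have h : (fun x => ρ * x + b) '' S = (fun x => x + b) '' (ρ • S) := by
    ext y
    simp only [Set.mem_image, Set.mem_smul_set, smul_eq_mul, exists_exists_and_eq_and]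
  rw [h, Set.image_add_right, measure_preimage_add_right, Measure.addHaar_smul]
  simp [abs_of_pos hρ]

theorem vol_I (S : Set unitInterval) : volume S = volume ((fun w : unitInterval => (w : ℝ)) '' S) :=
  unitInterval.volume_apply

/-- If the map `f` is affine with slope `ρ` on `S` then it multiplies the volume by `ρ`. -/
theorem vol_map {ρ : ℝ} (hρ : 0 < ρ) (f : unitInterval → unitInterval) (S : Set unitInterval)
    (h : ∀ s ∈ S, ∀ t ∈ S, (f t : ℝ) - f s = ρ * ((t : ℝ) - s)) :
    volume (f '' S) = ENNReal.ofReal ρ * volume S := by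
  rcases S.eq_empty_or_nonempty with h0 | ⟨a, ha⟩
  · rw [h0]
    simp
  rw [vol_I, vol_I S, ← vol_affine hρ ((f a : ℝ) - ρ * a)]
  congr 1
  ext y
  simp only [Set.mem_image, exists_exists_and_eq_and]
  constructor
  · rintro ⟨s, hs, rfl⟩
    refine ⟨s, hs, ?_⟩
    have := h a ha s hs
    linarith
  · rintro ⟨s, hs, rfl⟩
    refine ⟨s, hs, ?_⟩
    have := h a ha s hs
    linarith

/-- Near a time at which a continuous curve is at a point which is visited only at this time, the
times near the point are near the time. -/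
theorem near_time (f : C(unitInterval, ℂ)) (w : unitInterval) (hw : ∀ v, f v = f w → v = w)
    {η : ℝ} (hη : 0 < η) : ∃ r0 : ℝ, 0 < r0 ∧ ∀ v : unitInterval, dist (f v) (f w) ≤ r0 →
      |(v : ℝ) - w| < η := by
  by_contra hcon
  push Not at hcon
  have h1 : ∀ n : ℕ, ∃ v : unitInterval, dist (f v) (f w) ≤ 1 / ((n : ℝ) + 1) ∧ η ≤ |(v : ℝ) - w| :=
    fun n => hcon _ (by positivity)
  choose v hv1 hv2 using h1
  obtain ⟨a, -, φ, hφ, ha⟩ := isCompact_univ.tendsto_subseq (x := v) (fun n => Set.mem_univ _)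
  have h2 : Tendsto (fun n => dist (f (v (φ n))) (f w)) atTop (𝓝 (dist (f a) (f w))) :=
    ((f.continuous.tendsto a).comp ha).dist tendsto_const_nhds
  have h3 : Tendsto (fun n => 1 / (((φ n : ℕ) : ℝ) + 1)) atTop (𝓝 0) :=
    tendsto_one_div_add_atTop_nhds_zero_nat.comp hφ.tendsto_atTop
  have h4 : dist (f a) (f w) ≤ 0 := le_of_tendsto_of_tendsto' h2 h3 (fun n => hv1 (φ n))
  have h5 : a = w := hw a (dist_le_zero.1 h4)
  have h6 : Tendsto (fun n => |((v (φ n) : unitInterval) : ℝ) - w|) atTop (𝓝 |(a : ℝ) - w|) := by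
    have h7 : Tendsto (fun n => ((v (φ n) : unitInterval) : ℝ)) atTop (𝓝 (a : ℝ)) :=
      (continuous_subtype_val.tendsto a).comp ha
    exact (h7.sub_const _).abs
  have h8 : η ≤ |(a : ℝ) - w| := ge_of_tendsto' h6 (fun n => hv2 (φ n))
  rw [h5, sub_self, abs_zero] at h8
  linarith

end Pool.Agent.Q166.PT
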